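import Pool.Agent.V8H88.AB.Defs

/-!
# Multiplicative relations between the elements of several Galois modules of odd functions
-/

set_option autoImplicit false

namespace Pool.Agent.V8H88.AB

open Finset

/-- The conditions on the set of roots. -/
structure Nice (Ω : Finset ℂ) : Prop where
  gal : ∀ σ : ℂ ≃+* ℂ, ∀ z ∈ Ω, σ z ∈ Ω
  conj : ∀ z ∈ Ω, starRingEnd ℂ z ∈ Ω
  comm : ∀ σ : ℂ ≃+* ℂ, ∀ z ∈ Ω, σ (starRingEnd ℂ z) = starRingEnd ℂ (σ z)
  nt : ∀ z ∈ Ω, ∀ N : ℕ, 0 < N → z ^ N ≠ (starRingEnd ℂ z) ^ N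
  irr : OddIrreducible (Ω : Set ℂ)

/-- The subgroups of the multiplicative group that are stable under automorphisms and contain all
roots of their elements. -/
structure Sat (Γ : Set ℂ) : Prop where
  mul : ∀ x ∈ Γ, ∀ y ∈ Γ, x * y ∈ Γ
  inv : ∀ x ∈ Γ, x⁻¹ ∈ Γ
  gal : ∀ x ∈ Γ, ∀ σ : ℂ ≃+* ℂ, σ x ∈ Γ
  root : ∀ x, x ≠ 0 → ∀ N : ℕ, 0 < N → x ^ N ∈ Γ → x ∈ Γ

theorem Sat.one {Γ : Set ℂ} (hΓ : Sat Γ) {x : ℂ} (hx : x ∈ Γ) (hx0 : x ≠ 0) : (1 : ℂ) ∈ Γ := by
  have h := hΓ.mul x hx _ (hΓ.inv x hx)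
  rwa [mul_inv_cancel₀ hx0] at h

theorem Sat.root_zpow {Γ : Set ℂ} (hΓ : Sat Γ) (x : ℂ) (hx : x ≠ 0) (N : ℤ) (hN : N ≠ 0)
    (h : x ^ N ∈ Γ) : x ∈ Γ := by
  rcases Int.natAbs_eq N with h1 | h1
  · rw [h1, zpow_natCast] at h
    exact hΓ.root x hx _ (Int.natAbs_pos.2 hN) h
  · rw [h1, zpow_neg, zpow_natCast] at h
    have h2 := hΓ.inv _ h
    rw [inv_inv] at h2
    exact hΓ.root x hx _ (Int.natAbs_pos.2 hN) h2

/-- The product of the `(z ^ e) ^ c z`. -/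
noncomputable def ev (Ω : Finset ℂ) (e : ℕ) (c : ℂ → ℤ) : ℂ := ∏ z ∈ Ω, (z ^ e) ^ c z

section one

variable {Ω : Finset ℂ} (hΩ : Nice Ω)

include hΩ

theorem Nice.ne_zero {z : ℂ} (hz : z ∈ Ω) : z ≠ 0 := by
  rintro rfl
  exact hΩ.nt 0 hz 1 one_pos (by simp)

theorem Nice.ne_conj {z : ℂ} (hz : z ∈ Ω) : z ≠ starRingEnd ℂ z := by
  intro h
  have h1 := hΩ.nt z hz 1 one_pos
  rw [pow_one, pow_one] at h1
  exact h1 h

theorem Nice.mem_iff (σ : ℂ ≃+* ℂ) (z : ℂ) : σ z ∈ Ω ↔ z ∈ Ω := by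
  constructor
  · intro h
    have h1 := hΩ.gal σ.symm _ h
    rwa [σ.symm_apply_apply] at h1
  · exact hΩ.gal σ z

theorem Nice.conj_mem_iff (z : ℂ) : starRingEnd ℂ z ∈ Ω ↔ z ∈ Ω := by
  constructor
  · intro h
    have h1 := hΩ.conj _ h
    rwa [Complex.conj_conj] at h1
  · exact hΩ.conj z

theorem IsOdd.comp {c : ℂ → ℤ} (hc : IsOdd Ω c) (σ : ℂ ≃+* ℂ) : IsOdd Ω (c ∘ σ) := by
  refine ⟨fun z hz => hc.1 _ fun h => hz ?_, fun z => ?_⟩
  · exact Finset.mem_coe.2 ((hΩ.mem_iff σ z).1 (Finset.mem_coe.1 h))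
  · change c (σ (starRingEnd ℂ z)) = - c (σ z)
    by_cases hz : z ∈ Ω
    · rw [hΩ.comm σ z hz, hc.2]
    · rw [hc.1 (σ (starRingEnd ℂ z)), hc.1 (σ z), neg_zero]
      · exact fun h => hz ((hΩ.mem_iff σ z).1 (Finset.mem_coe.1 h))
      · exact fun h => hz ((hΩ.conj_mem_iff z).1 ((hΩ.mem_iff σ _).1 (Finset.mem_coe.1 h)))

theorem ev_ne_zero (e : ℕ) (c : ℂ → ℤ) : ev Ω e c ≠ 0 :=
  Finset.prod_ne_zero_iff.2 fun _ hz => zpow_ne_zero _ (pow_ne_zero _ (hΩ.ne_zero hz))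

theorem ev_add (e : ℕ) (c d : ℂ → ℤ) : ev Ω e (c + d) = ev Ω e c * ev Ω e d := by
  unfold ev
  rw [← Finset.prod_mul_distrib]
  refine Finset.prod_congr rfl fun z hz => ?_
  rw [Pi.add_apply, zpow_add₀ (pow_ne_zero _ (hΩ.ne_zero hz))]

omit hΩ in
theorem ev_zero (e : ℕ) : ev Ω e 0 = 1 := by
  unfold ev
  simp

omit hΩ in
theorem ev_neg (e : ℕ) (c : ℂ → ℤ) : ev Ω e (-c) = (ev Ω e c)⁻¹ := by
  unfold ev
  rw [← Finset.prod_inv_distrib]
  refine Finset.prod_congr rfl fun z hz => ?_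
  rw [Pi.neg_apply, zpow_neg]

theorem ev_sub (e : ℕ) (c d : ℂ → ℤ) : ev Ω e (c - d) = ev Ω e c * (ev Ω e d)⁻¹ := by
  rw [sub_eq_add_neg, ev_add hΩ, ev_neg]

omit hΩ in
theorem ev_zsmul (e : ℕ) (N : ℤ) (c : ℂ → ℤ) : ev Ω e (N • c) = ev Ω e c ^ N := by
  unfold ev
  rw [← Finset.prod_zpow]
  refine Finset.prod_congr rfl fun z hz => ?_
  rw [Pi.smul_apply, smul_eq_mul, mul_comm, zpow_mul]

theorem map_ev (e : ℕ) (σ : ℂ ≃+* ℂ) (c : ℂ → ℤ) : σ (ev Ω e c) = ev Ω e (c ∘ σ.symm) := by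
  unfold ev
  rw [map_prod]
  refine Finset.prod_equiv σ.toEquiv (fun z => ?_) fun z hz => ?_
  · exact (hΩ.mem_iff σ z).symm
  · rw [map_zpow₀, map_pow]
    change _ = (σ z ^ e) ^ c (σ.symm (σ z))
    rw [σ.symm_apply_apply]

theorem map_ev_symm (e : ℕ) (σ : ℂ ≃+* ℂ) (c : ℂ → ℤ) : σ.symm (ev Ω e c) = ev Ω e (c ∘ σ) :=
  map_ev hΩ e σ.symm c

/-- The difference of the indicator functions of `x` and its conjugate. -/
noncomputable def dl (x : ℂ) : ℂ → ℤ := Pi.single x 1 - Pi.single (starRingEnd ℂ x) 1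

theorem isOdd_dl {x : ℂ} (hx : x ∈ Ω) : IsOdd Ω (dl x) := by
  classical
  constructor
  · intro z hz
    have h1 : z ≠ x := by
      rintro rfl
      exact hz (Finset.mem_coe.2 hx)
    have h2 : z ≠ starRingEnd ℂ x := by
      rintro rfl
      exact hz (Finset.mem_coe.2 (hΩ.conj x hx))
    rw [dl, Pi.sub_apply, Pi.single_eq_of_ne h1, Pi.single_eq_of_ne h2, sub_zero]
  · intro z
    have h1 : (Pi.single x 1 : ℂ → ℤ) (starRingEnd ℂ z) =
        (Pi.single (starRingEnd ℂ x) 1 : ℂ → ℤ) z := by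
      by_cases h : z = starRingEnd ℂ x
      · rw [h, Complex.conj_conj, Pi.single_eq_same, Pi.single_eq_same]
      · rw [Pi.single_eq_of_ne h, Pi.single_eq_of_ne]
        intro h2
        apply h
        rw [← h2, Complex.conj_conj]
    have h2 : (Pi.single (starRingEnd ℂ x) 1 : ℂ → ℤ) (starRingEnd ℂ z) =
        (Pi.single x 1 : ℂ → ℤ) z := by
      by_cases h : z = x
      · rw [h, Pi.single_eq_same, Pi.single_eq_same]
      · rw [Pi.single_eq_of_ne h, Pi.single_eq_of_ne]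
        intro h2
        exact h ((starRingEnd ℂ).injective h2)
    rw [dl, Pi.sub_apply, Pi.sub_apply, h1, h2, neg_sub]

theorem dl_self {x : ℂ} (hx : x ∈ Ω) : dl x x = 1 := by
  rw [dl, Pi.sub_apply, Pi.single_eq_same, Pi.single_eq_of_ne (hΩ.ne_conj hx), sub_zero]

omit hΩ in
theorem eq_of_dl {x z : ℂ} (h : dl x z = 1) : z = x := by
  by_contra hne
  rw [dl, Pi.sub_apply, Pi.single_eq_of_ne hne] at h
  by_cases h1 : z = starRingEnd ℂ x
  · rw [h1, Pi.single_eq_same] at h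
    omega
  · rw [Pi.single_eq_of_ne h1] at h
    omega

theorem ev_dl (e : ℕ) {x : ℂ} (hx : x ∈ Ω) : ev Ω e (dl x) = x ^ e / (starRingEnd ℂ x) ^ e := by
  classical
  have h1 : ∀ y ∈ Ω, ev Ω e (Pi.single y 1) = y ^ e := by
    intro y hy
    unfold ev
    rw [Finset.prod_eq_single y]
    · rw [Pi.single_eq_same, zpow_one]
    · intro z _ hz
      rw [Pi.single_eq_of_ne hz, zpow_zero]
    · intro h
      exact absurd hy h
  rw [dl, ev_sub hΩ, h1 x hx, h1 _ (hΩ.conj x hx), div_eq_mul_inv]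

/-- A set of automorphisms, normalized by all automorphisms, that fixes one nonzero odd function fixes
all elements of `Ω`. -/
theorem invariance (P : (ℂ ≃+* ℂ) → Prop) (hP : ∀ σ τ : ℂ ≃+* ℂ, P σ → P ((τ.trans σ).trans τ.symm))
    (c : ℂ → ℤ) (hc : IsOdd Ω c) (hc0 : c ≠ 0) (hfix : ∀ σ, P σ → c ∘ σ = c) (σ : ℂ ≃+* ℂ)
    (hσ : P σ) (z : ℂ) (hz : z ∈ Ω) : σ z = z := by
  obtain ⟨N, hN, hmem⟩ := hΩ.irr c hc hc0 (dl z) (isOdd_dl hΩ hz)
  have h1 : ∀ x ∈ AddSubgroup.closure (Set.range fun σ : ℂ ≃+* ℂ => c ∘ σ), x ∘ σ = x := by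
    intro x hx
    induction hx using AddSubgroup.closure_induction with
    | mem x hx =>
      obtain ⟨τ, rfl⟩ := hx
      have h2 := hfix _ (hP σ τ.symm hσ)
      funext w
      have h3 := congrFun h2 (τ w)
      change c (τ.symm.symm (σ (τ.symm (τ w)))) = c (τ w) at h3
      rw [τ.symm_apply_apply] at h3
      exact h3
    | zero => rfl
    | add x y _ _ hx hy =>
      funext w
      have h2 := congrFun hx w
      have h3 := congrFun hy w
      change x (σ w) + y (σ w) = x w + y w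
      change x (σ w) = x w at h2
      change y (σ w) = y w at h3
      rw [h2, h3]
    | neg x _ hx =>
      funext w
      have h2 := congrFun hx w
      change - x (σ w) = - x w
      change x (σ w) = x w at h2
      rw [h2]
  have h2 := congrFun (h1 _ hmem) z
  change N • dl z (σ z) = N • dl z z at h2
  rw [smul_eq_mul, smul_eq_mul] at h2
  have h3 := mul_left_cancel₀ hN h2
  rw [dl_self hΩ hz] at h3
  exact eq_of_dl h3

/-- If the value of one nonzero odd function lies in `Γ` then so do the values of all. -/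
theorem all_mem {Γ : Set ℂ} (hΓ : Sat Γ) (e : ℕ) (c : ℂ → ℤ) (hc : IsOdd Ω c) (hc0 : c ≠ 0)
    (h : ev Ω e c ∈ Γ) (d : ℂ → ℤ) (hd : IsOdd Ω d) : ev Ω e d ∈ Γ := by
  obtain ⟨N, hN, hmem⟩ := hΩ.irr c hc hc0 d hd
  have h1 : ∀ x ∈ AddSubgroup.closure (Set.range fun σ : ℂ ≃+* ℂ => c ∘ σ), ev Ω e x ∈ Γ := by
    intro x hx
    induction hx using AddSubgroup.closure_induction with
    | mem x hx =>
      obtain ⟨τ, rfl⟩ := hx
      rw [← map_ev_symm hΩ]
      exact hΓ.gal _ h _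
    | zero =>
      rw [ev_zero]
      exact hΓ.one h (ev_ne_zero hΩ e c)
    | add x y _ _ hx hy =>
      rw [ev_add hΩ]
      exact hΓ.mul _ hx _ hy
    | neg x _ hx =>
      rw [ev_neg]
      exact hΓ.inv _ hx
  have h2 := h1 _ hmem
  rw [ev_zsmul] at h2
  exact hΓ.root_zpow _ (ev_ne_zero hΩ e d) N hN h2

omit hΩ in
/-- The roots of unity. -/
theorem sat_roots_of_unity : Sat {x : ℂ | ∃ N : ℕ, 0 < N ∧ x ^ N = 1} where
  mul := by
    rintro x ⟨N, hN, hx⟩ y ⟨M, hM, hy⟩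
    refine ⟨N * M, Nat.mul_pos hN hM, ?_⟩
    rw [mul_pow, pow_mul, hx, one_pow, mul_comm N M, pow_mul, hy, one_pow, one_mul]
  inv := by
    rintro x ⟨N, hN, hx⟩
    exact ⟨N, hN, by rw [inv_pow, hx, inv_one]⟩
  gal := by
    rintro x ⟨N, hN, hx⟩ σ
    exact ⟨N, hN, by rw [← map_pow, hx, map_one]⟩
  root := by
    rintro x _ N hN ⟨M, hM, hx⟩
    exact ⟨N * M, Nat.mul_pos hN hM, by rw [pow_mul, hx]⟩

/-- The values of nonzero odd functions are not roots of unity. -/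
theorem eq_zero_of_ev {e : ℕ} (he : 0 < e) (hne : Ω.Nonempty) (c : ℂ → ℤ) (hc : IsOdd Ω c) (N : ℕ)
    (hN : 0 < N) (h : ev Ω e c ^ N = 1) : c = 0 := by
  by_contra hc0
  obtain ⟨x, hx⟩ := hne
  obtain ⟨M, hM, h1⟩ := all_mem hΩ sat_roots_of_unity e c hc hc0 ⟨N, hN, h⟩ (dl x) (isOdd_dl hΩ hx)
  rw [ev_dl hΩ e hx, div_pow, ← pow_mul, ← pow_mul, div_eq_one_iff_eq
    (pow_ne_zero _ (hΩ.ne_zero (hΩ.conj x hx)))] at h1
  exact hΩ.nt x hx _ (Nat.mul_pos he hM) h1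

end one

/-- The automorphism fixes all elements of `Ω`. -/
def Fixes (Ω : Finset ℂ) (σ : ℂ ≃+* ℂ) : Prop := ∀ z ∈ Ω, σ z = z

theorem Fixes.conj {Ω : Finset ℂ} (hΩ : Nice Ω) (σ τ : ℂ ≃+* ℂ) (h : Fixes Ω σ) :
    Fixes Ω ((τ.trans σ).trans τ.symm) := by
  intro z hz
  change τ.symm (σ (τ z)) = z
  rw [h _ (hΩ.gal τ z hz), τ.symm_apply_apply]

theorem Fixes.comp {Ω : Finset ℂ} (hΩ : Nice Ω) {σ : ℂ ≃+* ℂ} (h : Fixes Ω σ) {c : ℂ → ℤ}
    (hc : IsOdd Ω c) : c ∘ σ = c := by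
  funext z
  change c (σ z) = c z
  by_cases hz : z ∈ Ω
  · rw [h z hz]
  · rw [hc.1 z (fun h => hz (Finset.mem_coe.1 h)),
      hc.1 (σ z) (fun h => hz ((hΩ.mem_iff σ z).1 (Finset.mem_coe.1 h)))]

/-- **The core.** If the product of the values of odd functions, not all zero, lies in `Γ`, then for
some index all the values lie in `Γ`. -/
theorem core {ι : Type*} [DecidableEq ι] (Ω : ι → Finset ℂ) (hΩ : ∀ i, Nice (Ω i)) (e : ι → ℕ)
    (hdiff : ∀ i j, i ≠ j → ∃ σ, (Fixes (Ω i) σ ∧ ¬ Fixes (Ω j) σ) ∨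
      (Fixes (Ω j) σ ∧ ¬ Fixes (Ω i) σ)) {Γ : Set ℂ} (hΓ : Sat Γ) :
    ∀ (J : Finset ι) (c : ι → ℂ → ℤ), (∀ i, IsOdd (Ω i) (c i)) → (∀ i, i ∉ J → c i = 0) → c ≠ 0 →
      ∏ i ∈ J, ev (Ω i) (e i) (c i) ∈ Γ →
        ∃ i ∈ J, ∀ d, IsOdd (Ω i) d → ev (Ω i) (e i) d ∈ Γ := by
  intro J
  induction J using Finset.strongInduction with
  | H J ih =>
    intro c hodd hsupp hc0 hmem
    by_cases hz : ∃ i ∈ J, c i = 0
    · obtain ⟨i, hi, hci⟩ := hz
      obtain ⟨i', hi', h⟩ := ih (J.erase i) (Finset.erase_ssubset hi) c hodd (fun k hk => by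
          by_cases hki : k = i
          · rw [hki, hci]
          · exact hsupp k fun h => hk (Finset.mem_erase.2 ⟨hki, h⟩)) hc0 (by
          rw [← Finset.mul_prod_erase J _ hi, hci, ev_zero, one_mul] at hmem
          exact hmem)
      exact ⟨i', (Finset.mem_erase.1 hi').2, h⟩
    · push Not at hz
      obtain ⟨i, hi⟩ : ∃ i, i ∈ J := by
        by_contra hJ
        push Not at hJ
        exact hc0 (funext fun i => hsupp i (hJ i))
      by_cases hJ : ∃ j ∈ J, j ≠ i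
      · -- two indices
        obtain ⟨j, hj, hji⟩ := hJ
        have key : ∀ i ∈ J, ∀ j ∈ J, (∃ σ, Fixes (Ω i) σ ∧ ¬ Fixes (Ω j) σ) →
            ∃ i ∈ J, ∀ d, IsOdd (Ω i) d → ev (Ω i) (e i) d ∈ Γ := by
          rintro i hi j hj ⟨σ, hσ1, hσ2⟩
          obtain ⟨τ, hτ1, hτ2⟩ : ∃ τ, Fixes (Ω i) τ ∧ c j ∘ τ ≠ c j := by
            by_contra hcon
            push Not at hcon
            apply hσ2
            intro z hz'
            exact invariance (hΩ j) (Fixes (Ω i)) (fun σ τ => Fixes.conj (hΩ i) σ τ) (c j)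
              (hodd j) (hz j hj) hcon σ hσ1 z hz'
          obtain ⟨i', hi', h⟩ := ih (J.erase i) (Finset.erase_ssubset hi)
            (fun k => c k ∘ τ - c k) (fun k => by
              have h1 := IsOdd.comp (hΩ k) (hodd k) τ
              refine ⟨fun z hz' => ?_, fun z => ?_⟩
              · rw [Pi.sub_apply, h1.1 z hz', (hodd k).1 z hz', sub_zero]
              · rw [Pi.sub_apply, Pi.sub_apply, h1.2 z, (hodd k).2 z]
                ring)
            (fun k hk => by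
              by_cases hki : k = i
              · subst hki
                rw [hτ1.comp (hΩ k) (hodd k), sub_self]
              · rw [hsupp k fun h => hk (Finset.mem_erase.2 ⟨hki, h⟩)]
                rfl)
            (fun h0 => hτ2 (sub_eq_zero.1 (congrFun h0 j))) (by
              have h1 : ∀ k ∈ J, ev (Ω k) (e k) (c k ∘ τ - c k) =
                  τ.symm (ev (Ω k) (e k) (c k)) * (ev (Ω k) (e k) (c k))⁻¹ := by
                intro k _
                rw [ev_sub (hΩ k), map_ev_symm (hΩ k)]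
              have h2 : ∏ k ∈ J.erase i, ev (Ω k) (e k) (c k ∘ τ - c k) =
                  τ.symm (∏ k ∈ J, ev (Ω k) (e k) (c k)) * (∏ k ∈ J, ev (Ω k) (e k) (c k))⁻¹ := by
                rw [map_prod, ← Finset.prod_inv_distrib, ← Finset.prod_mul_distrib,
                  ← Finset.prod_congr rfl h1, ← Finset.mul_prod_erase J _ hi,
                  hτ1.comp (hΩ i) (hodd i), sub_self, ev_zero, one_mul]
              rw [h2]
              exact hΓ.mul _ (hΓ.gal _ hmem _) _ (hΓ.inv _ hmem))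
          exact ⟨i', (Finset.mem_erase.1 hi').2, h⟩
        obtain ⟨σ, h | h⟩ := hdiff i j (Ne.symm hji)
        · exact key i hi j hj ⟨σ, h⟩
        · exact key j hj i hi ⟨σ, h⟩
      · -- one index
        push Not at hJ
        have hJi : J = {i} := by
          ext k
          rw [Finset.mem_singleton]
          constructor
          · exact hJ k
          · rintro rfl
            exact hi
        refine ⟨i, hi, fun d hd => all_mem (hΩ i) hΓ (e i) (c i) (hodd i) (hz i hi) ?_ d hd⟩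
        rw [hJi, Finset.prod_singleton] at hmem
        exact hmem

end Pool.Agent.V8H88.AB
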