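import Mathlib

/-!
# Weil polynomials with an irreducible module of odd functions on the roots: definitions
-/

set_option autoImplicit false

namespace Pool.Agent.V8H88.AB

open Polynomial

/-- The functions on `ℂ` with support in `Ω` and `c (conj z) = - c z`. -/
def IsOdd (Ω : Set ℂ) (c : ℂ → ℤ) : Prop :=
  (∀ z, z ∉ Ω → c z = 0) ∧ ∀ z, c (starRingEnd ℂ z) = - c z

/-- Every nonzero subgroup of the group of odd functions on `Ω`, stable under automorphisms of `ℂ`,
contains a nonzero multiple of each odd function. -/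
def OddIrreducible (Ω : Set ℂ) : Prop :=
  ∀ c, IsOdd Ω c → c ≠ 0 → ∀ d, IsOdd Ω d →
    ∃ N : ℤ, N ≠ 0 ∧ N • d ∈ AddSubgroup.closure (Set.range fun σ : ℂ ≃+* ℂ => c ∘ σ)

/-- The field generated by the complex roots. -/
noncomputable def spl (f : ℤ[X]) : IntermediateField ℚ ℂ :=
  IntermediateField.adjoin ℚ {z : ℂ | aeval z f = 0}

/-- The polynomial `f` is irreducible over `ℚ`, no power of a complex root is real, and the Galois
module of the odd functions on the set of roots is irreducible over `ℚ`. -/
structure IsGeneric (f : ℤ[X]) : Prop where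
  irreducible : Irreducible (f.map (Int.castRingHom ℚ))
  not_real : ∀ z : ℂ, aeval z f = 0 → ∀ N : ℕ, 0 < N → z ^ N ≠ (starRingEnd ℂ z) ^ N
  odd : OddIrreducible {z : ℂ | aeval z f = 0}

end Pool.Agent.V8H88.AB
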