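import Pool.Agent.V8H88.AB.Gal
import Pool.Agent.W521.Total

/-!
# Flips imply that the module of odd functions is irreducible
-/

set_option autoImplicit false

namespace Pool.Agent.V8H88.AB

open Polynomial Pool.Agent.W521.Descent Pool.Agent.W521.Frob Pool.Agent.W521.Criterion
  Pool.Agent.W521.Bad Pool.Agent.W521.Density Pool.Agent.H977R3.CM

theorem dl_apply_of_ne {x z : ℂ} (h1 : z ≠ x) (h2 : z ≠ starRingEnd ℂ x) : dl x z = 0 := by
  rw [dl, Pi.sub_apply, Pi.single_eq_of_ne h1, Pi.single_eq_of_ne h2, sub_zero]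

/-- The flips and the transitivity imply the irreducibility. -/
theorem oddIrreducible_of_flips (Ω : Finset ℂ) (hgal : ∀ σ : ℂ ≃+* ℂ, ∀ z ∈ Ω, σ z ∈ Ω)
    (hconj : ∀ z ∈ Ω, starRingEnd ℂ z ∈ Ω)
    (hcomm : ∀ σ : ℂ ≃+* ℂ, ∀ z ∈ Ω, σ (starRingEnd ℂ z) = starRingEnd ℂ (σ z))
    (hne : ∀ z ∈ Ω, z ≠ starRingEnd ℂ z)
    (hflip : ∀ z ∈ Ω, ∃ σ : ℂ ≃+* ℂ, σ z = starRingEnd ℂ z ∧
      ∀ w ∈ Ω, w ≠ z → w ≠ starRingEnd ℂ z → σ w = w)
    (htrans : ∀ z ∈ Ω, ∀ w ∈ Ω, ∃ σ : ℂ ≃+* ℂ, σ z = w) : OddIrreducible (Ω : Set ℂ) := by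
  classical
  intro c hc hc0 d hd
  have hmemσ : ∀ (σ : ℂ ≃+* ℂ) (z : ℂ), σ z ∈ Ω → z ∈ Ω := by
    intro σ z h
    have h1 := hgal σ.symm _ h
    rwa [σ.symm_apply_apply] at h1
  have hself : ∀ z ∈ Ω, dl z z = 1 := by
    intro z hz
    rw [dl, Pi.sub_apply, Pi.single_eq_same, Pi.single_eq_of_ne (hne z hz), sub_zero]
  have hbar : ∀ z ∈ Ω, dl z (starRingEnd ℂ z) = -1 := by
    intro z hz
    rw [dl, Pi.sub_apply, Pi.single_eq_same, Pi.single_eq_of_ne (hne z hz).symm, zero_sub]
  obtain ⟨z₀, hz₀⟩ : ∃ z, c z ≠ 0 := by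
    by_contra hall
    push Not at hall
    exact hc0 (funext hall)
  have hz₀Ω : z₀ ∈ Ω := by
    by_contra h
    exact hz₀ (hc.1 z₀ fun h' => h (Finset.mem_coe.1 h'))
  set S := AddSubgroup.closure (Set.range fun σ : ℂ ≃+* ℂ => c ∘ σ) with hS
  have hcomp : ∀ x ∈ S, ∀ τ : ℂ ≃+* ℂ, x ∘ τ ∈ S := by
    intro x hx τ
    induction hx using AddSubgroup.closure_induction with
    | mem x hx =>
      obtain ⟨σ, rfl⟩ := hx
      exact AddSubgroup.subset_closure ⟨τ.trans σ, rfl⟩
    | zero => exact S.zero_mem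
    | add x y _ _ hx hy => exact S.add_mem hx hy
    | neg x _ hx => exact S.neg_mem hx
  -- the first step
  obtain ⟨σ, h1, h2⟩ := hflip z₀ hz₀Ω
  have hσbar : σ (starRingEnd ℂ z₀) = z₀ := by
    rw [hcomm σ z₀ hz₀Ω, h1, Complex.conj_conj]
  have h3 : (2 * c z₀) • dl z₀ = c - c ∘ σ := by
    funext w
    change (2 * c z₀) • dl z₀ w = c w - c (σ w)
    rw [smul_eq_mul]
    by_cases hw : w ∈ Ω
    · by_cases hw1 : w = z₀
      · rw [hw1, hself _ hz₀Ω, h1, hc.2 z₀]
        ring
      · by_cases hw2 : w = starRingEnd ℂ z₀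
        · rw [hw2, hbar _ hz₀Ω, hσbar, hc.2 z₀]
          ring
        · rw [dl_apply_of_ne hw1 hw2, h2 w hw hw1 hw2, sub_self, mul_zero]
    · have hw1 : w ≠ z₀ := fun h => hw (by rw [h]; exact hz₀Ω)
      have hw2 : w ≠ starRingEnd ℂ z₀ := fun h => hw (by rw [h]; exact hconj _ hz₀Ω)
      rw [dl_apply_of_ne hw1 hw2, hc.1 w fun h' => hw (Finset.mem_coe.1 h'),
        hc.1 (σ w) fun h' => hw (hmemσ σ w (Finset.mem_coe.1 h')), sub_self, mul_zero]
  have h4 : (2 * c z₀) • dl z₀ ∈ S := by
    rw [h3]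
    exact S.sub_mem (AddSubgroup.subset_closure ⟨RingEquiv.refl ℂ, rfl⟩)
      (AddSubgroup.subset_closure ⟨σ, rfl⟩)
  -- all elements
  have h5 : ∀ w ∈ Ω, (2 * c z₀) • dl w ∈ S := by
    intro w hw
    obtain ⟨τ, hτ⟩ := htrans w hw z₀ hz₀Ω
    have h6 : dl w = dl z₀ ∘ τ := by
      funext y
      change dl w y = dl z₀ (τ y)
      have e1 : (τ y = z₀) ↔ (y = w) := by
        rw [← hτ]
        exact τ.injective.eq_iff
      have e2 : (τ y = starRingEnd ℂ z₀) ↔ (y = starRingEnd ℂ w) := by
        rw [← hτ, ← hcomm τ w hw]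
        exact τ.injective.eq_iff
      rw [dl, dl, Pi.sub_apply, Pi.sub_apply, Pi.single_apply, Pi.single_apply, Pi.single_apply,
        Pi.single_apply]
      simp only [e1, e2]
    have h7 := hcomp _ h4 τ
    rw [h6]
    exact h7
  refine ⟨4 * c z₀, mul_ne_zero four_ne_zero hz₀, ?_⟩
  have h6 : (2 : ℤ) • d = ∑ w ∈ Ω, d w • dl w := by
    funext y
    rw [Finset.sum_apply, Pi.smul_apply]
    have e1 : ∀ w ∈ Ω, (d w • dl w) y = d w * (if y = w then 1 else 0) -
        d w * (if w = starRingEnd ℂ y then 1 else 0) := by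
      intro w _
      rw [Pi.smul_apply, dl, Pi.sub_apply, Pi.single_apply, Pi.single_apply, smul_eq_mul, mul_sub]
      congr 3
      rw [eq_iff_iff]
      constructor
      · rintro rfl
        rw [Complex.conj_conj]
      · rintro rfl
        rw [Complex.conj_conj]
    rw [Finset.sum_congr rfl e1, Finset.sum_sub_distrib]
    simp only [mul_ite, mul_one, mul_zero, Finset.sum_ite_eq, Finset.sum_ite_eq']
    by_cases hy : y ∈ Ω
    · rw [if_pos hy, if_pos (hconj y hy), hd.2 y, smul_eq_mul]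
      ring
    · have hy' : starRingEnd ℂ y ∉ Ω := by
        intro h
        have h' := hconj _ h
        rw [Complex.conj_conj] at h'
        exact hy h'
      rw [if_neg hy, if_neg hy', hd.1 y fun h' => hy (Finset.mem_coe.1 h')]
      simp
  have h7 : (4 * c z₀) • d = ∑ w ∈ Ω, d w • ((2 * c z₀) • dl w) := by
    have e1 : (4 * c z₀) • d = (2 * c z₀) • ((2 : ℤ) • d) := by
      rw [smul_smul]
      congr 1
      ring
    rw [e1, h6, Finset.smul_sum]
    refine Finset.sum_congr rfl fun w _ => ?_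
    rw [smul_comm]
  rw [h7]
  exact S.sum_mem fun w hw => S.zsmul_mem (h5 w hw) _

section

variable {I : Type*} [Finite I] {q : ℕ} {h : I → ℤ[X]} {g : ℕ}

/-- **The good polynomials are generic.** -/
theorem isGeneric_of_flips (hq : 0 < q) (hm : ∀ i, (h i).Monic) (i : I)
    (hirr : Irreducible ((h i).map (Int.castRingHom ℚ)))
    (hpat : ∃ l : ℕ, l.Prime ∧ l ≠ 2 ∧ ¬ l ∣ q ∧ FlipPattern q h i l)
    (hss : ¬ (q : ℤ) ∣ (h i).nextCoeff ^ 2) (hw : weil q (h i) ∈ weilPolys q g) :
    IsGeneric (weil q (h i)) := by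
  classical
  have hq' : q ≠ 0 := hq.ne'
  obtain ⟨L, _, _, _, j, hL⟩ := exists_field q h hm
  obtain ⟨l, hl, hl2, hlq, hp⟩ := hpat
  have hfl : ∀ α : L, aeval α (weil q (h i)) = 0 → Flippable q h α := fun α hα =>
    all_flippable hq' hm L j hL i hirr hl hl2 hlq hp α hα
  have hqL : (q : L) ≠ 0 := by exact_mod_cast hq'
  have hup : ∀ x : L, aeval x (weil q (h i)) = 0 → aeval (j x) (weil q (h i)) = 0 := by
    intro x hx
    have h2 := Polynomial.hom_eval₂ (weil q (h i)) (algebraMap ℤ L) j x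
    rw [RingHom.ext_int (j.comp (algebraMap ℤ L)) (algebraMap ℤ ℂ)] at h2
    have h3 : eval₂ (algebraMap ℤ L) x (weil q (h i)) = 0 := hx
    rw [h3, map_zero] at h2
    exact h2.symm
  have hdown : ∀ x : L, aeval (j x) (weil q (h i)) = 0 → aeval x (weil q (h i)) = 0 := by
    intro x hx
    apply j.injective
    have h2 := Polynomial.hom_eval₂ (weil q (h i)) (algebraMap ℤ L) j x
    rw [RingHom.ext_int (j.comp (algebraMap ℤ L)) (algebraMap ℤ ℂ)] at h2
    rw [map_zero]
    exact h2.trans hx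
  have hjbar : ∀ x : L, aeval x (weil q (h i)) = 0 → j (q / x) = starRingEnd ℂ (j x) := by
    intro x hx
    have h1 := mul_conj hw (hup x hx)
    have h2 := root_ne_zero' hq hw (hup x hx)
    rw [map_div₀, map_natCast, ← h1, mul_div_cancel_left₀ _ h2]
  -- transitivity
  have htrans : ∀ α β : L, aeval α (weil q (h i)) = 0 → aeval β (weil q (h i)) = 0 →
      ∃ τ : L ≃ₐ[ℚ] L, τ α = β := by
    intro α β hα hβ
    obtain ⟨τ, hτ | hτ⟩ := exists_tau hq' hm L j hL i hirr α β hα hβ
    · exact ⟨τ, hτ⟩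
    · obtain ⟨σ, h1, -, -⟩ := hfl β hβ
      refine ⟨τ.trans σ, ?_⟩
      change σ (τ α) = β
      rw [hτ, map_div₀, map_natCast, h1, div_div_cancel₀ hqL]
  refine ⟨?_, ?_, ?_⟩
  · -- irreducible
    set Ω : Finset L := ((weil q (h i)).map (algebraMap ℤ L)).roots.toFinset with hΩ
    have hΩm : ∀ x, x ∈ Ω ↔ aeval x (weil q (h i)) = 0 := by
      intro x
      rw [hΩ, Multiset.mem_toFinset, mem_roots ((weil_monic q (hm i)).map _).ne_zero, IsRoot.def,
        eval_map]
      rfl
    have hsplit := splits_h hq' hm L j hL i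
    have hsep : ((h i).map (algebraMap ℤ L)).Separable := by
      have h1 := hirr.separable
      have h2 := h1.map (f := algebraMap ℚ L)
      rwa [Polynomial.map_map, RingHom.ext_int ((algebraMap ℚ L).comp (Int.castRingHom ℚ))
        (algebraMap ℤ L)] at h2
    set Θ : Finset L := ((h i).map (algebraMap ℤ L)).roots.toFinset with hΘ
    have hΘcard : Θ.card = (h i).natDegree := by
      rw [hΘ, Multiset.toFinset_card_of_nodup (nodup_roots hsep),
        ← hsplit.natDegree_eq_card_roots, (hm i).natDegree_map]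
    have hΘm : ∀ θ, θ ∈ Θ ↔ aeval θ (h i) = 0 := by
      intro x
      rw [hΘ, Multiset.mem_toFinset, mem_roots ((hm i).map _).ne_zero, IsRoot.def, eval_map]
      rfl
    have hcard : Ω.card = 2 * (h i).natDegree := by
      rw [Finset.card_eq_sum_card_fiberwise (f := fun α : L => α + q / α) (t := Θ)]
      · have h1 : ∀ θ ∈ Θ, (Ω.filter fun α => α + q / α = θ).card = 2 := by
          intro θ hθ
          obtain ⟨α, hα⟩ := quad_L hq' hm L j hL i θ ((hΘm θ).1 hθ)
          have hαr : aeval α (weil q (h i)) = 0 := by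
            rw [aeval_weil q (h i) α θ hα, (hΘm θ).1 hθ, mul_zero]
          have hα0 : α ≠ 0 := root_ne_zero hq' (hm i) hαr
          have hαθ : α + q / α = θ := by
            field_simp
            linear_combination hα
          obtain ⟨-, -, hne, -⟩ := hfl α hαr
          have h2 : (Ω.filter fun α => α + q / α = θ) = {α, q / α} := by
            ext β
            rw [Finset.mem_filter, Finset.mem_insert, Finset.mem_singleton]
            constructor
            · rintro ⟨hβ, hβθ⟩
              have hβ0 : β ≠ 0 := root_ne_zero hq' (hm i) ((hΩm β).1 hβ)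
              have h3 : (β - α) * (β - q / α) = 0 := by
                have h4 : β ^ 2 + q = (α + q / α) * β := by
                  rw [hαθ, ← hβθ]
                  field_simp
                have h5 : α * (q / α) = q := by field_simp
                linear_combination h4 + h5
              rcases mul_eq_zero.1 h3 with h4 | h4
              · exact Or.inl (sub_eq_zero.1 h4)
              · exact Or.inr (sub_eq_zero.1 h4)
            · rintro (rfl | rfl)
              · exact ⟨(hΩm _).2 hαr, hαθ⟩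
              · refine ⟨(hΩm _).2 ?_, ?_⟩
                · refine (root_iff hq' (hm i) _).2 ⟨div_ne_zero hqL hα0, ?_⟩
                  rw [div_div_cancel₀ hqL, add_comm, hαθ]
                  exact (hΘm θ).1 hθ
                · rw [div_div_cancel₀ hqL, add_comm, hαθ]
          rw [h2, Finset.card_pair hne]
        rw [Finset.sum_congr rfl h1, Finset.sum_const, hΘcard, smul_eq_mul, mul_comm]
      · intro α hα
        exact (hΘm _).2 ((root_iff hq' (hm i) α).1 ((hΩm α).1 hα)).2
    have hhpos : 0 < (h i).natDegree := by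
      have h1 := hirr.natDegree_pos
      rwa [(hm i).natDegree_map] at h1
    obtain ⟨α, hα⟩ : Ω.Nonempty := by
      rw [← Finset.card_pos, hcard]
      omega
    have hαr := (hΩm α).1 hα
    have hfm : ((weil q (h i)).map (Int.castRingHom ℚ)).Monic := (weil_monic q (hm i)).map _
    have hαf : aeval α ((weil q (h i)).map (Int.castRingHom ℚ)) = 0 := by
      rw [aeval_def, eval₂_map, RingHom.ext_int ((algebraMap ℚ L).comp _) (algebraMap ℤ L)]
      exact hαr
    have hint : IsIntegral ℚ α := ⟨_, hfm, hαf⟩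
    have hdvd := minpoly.dvd ℚ α hαf
    have hdeg : ((weil q (h i)).map (Int.castRingHom ℚ)).natDegree ≤ (minpoly ℚ α).natDegree := by
      have h1 : Ω ⊆ ((minpoly ℚ α).map (algebraMap ℚ L)).roots.toFinset := by
        intro β hβ
        obtain ⟨τ, rfl⟩ := htrans α β hαr ((hΩm β).1 hβ)
        rw [Multiset.mem_toFinset, mem_roots ((minpoly.monic hint).map _).ne_zero, IsRoot.def,
          eval_map, ← aeval_def]
        have h2 := Polynomial.aeval_algHom_apply (τ : L →ₐ[ℚ] L) α (minpoly ℚ α)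
        rw [minpoly.aeval, map_zero] at h2
        exact h2
      have h2 := (Finset.card_le_card h1).trans (Multiset.toFinset_card_le _)
      have h3 := h2.trans (card_roots' _)
      rw [(minpoly.monic hint).natDegree_map, hcard] at h3
      rw [(weil_monic q (hm i)).natDegree_map]
      have h4 := weil_natDegree q (hm i)
      omega
    have heq := Polynomial.eq_of_monic_of_dvd_of_natDegree_le (minpoly.monic hint) hfm hdvd hdeg
    rw [heq]
    exact minpoly.irreducible hint
  · -- not real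
    intro z hz N hN hzN
    obtain ⟨x, rfl⟩ := hL i z hz
    have hx := hdown x hz
    apply hss
    refine dvd_of_root_of_unity hq' hm L j hL i hirr x hx N hN ?_
    apply j.injective
    rw [map_pow, map_pow, map_pow, map_natCast, ← mul_conj hw hz, mul_pow, ← hzN]
    ring
  · -- the odd functions
    rw [← coe_rts (weil_monic q (hm i))]
    have hmem : ∀ z, z ∈ rts (weil q (h i)) ↔ aeval z (weil q (h i)) = 0 :=
      mem_rts (weil_monic q (hm i))
    have hgal : ∀ σ : ℂ ≃+* ℂ, ∀ z ∈ rts (weil q (h i)), σ z ∈ rts (weil q (h i)) := by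
      intro σ z hz
      rw [hmem] at hz ⊢
      have h := aeval_map_ringHom (weil q (h i)) (σ : ℂ →+* ℂ) z
      rw [hz, map_zero] at h
      exact h
    refine oddIrreducible_of_flips _ hgal ?_ ?_ ?_ ?_ ?_
    · intro z hz
      rw [hmem] at hz ⊢
      rw [aeval_map_ringHom, hz, map_zero]
    · intro σ z hz
      have h1 := mul_conj hw ((hmem z).1 hz)
      have h2 := (hmem _).1 (hgal σ z hz)
      have h3 := mul_conj hw h2
      have h4 := congrArg σ h1
      rw [map_mul, map_natCast, ← h3] at h4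
      exact mul_left_cancel₀ (root_ne_zero' hq hw h2) h4
    · intro z hz hcon
      obtain ⟨x, rfl⟩ := hL i z ((hmem z).1 hz)
      have hx := hdown x ((hmem _).1 hz)
      obtain ⟨-, -, hne, -⟩ := hfl x hx
      apply hne
      apply j.injective
      rw [hjbar x hx, ← hcon]
    · intro z hz
      obtain ⟨x, rfl⟩ := hL i z ((hmem z).1 hz)
      have hx := hdown x ((hmem _).1 hz)
      obtain ⟨σ, h1, -, h3⟩ := hfl x hx
      obtain ⟨τ, hτ⟩ := exists_aut j (σ : L ≃+* L)
      refine ⟨τ, ?_, ?_⟩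
      · rw [hτ, ← hjbar x hx]
        exact congrArg j h1
      · intro w hw' hw1 hw2
        obtain ⟨y, rfl⟩ := hL i w ((hmem w).1 hw')
        rw [hτ]
        have h4 : σ y = y := h3 i y (hdown y ((hmem _).1 hw')) (fun h => hw1 (by rw [h]))
          (fun h => hw2 (by rw [h, hjbar x hx]))
        exact congrArg j h4
    · intro z hz w hw'
      obtain ⟨x, rfl⟩ := hL i z ((hmem z).1 hz)
      obtain ⟨y, rfl⟩ := hL i w ((hmem w).1 hw')
      obtain ⟨σ, hσ⟩ := htrans x y (hdown x ((hmem _).1 hz)) (hdown y ((hmem _).1 hw'))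
      obtain ⟨τ, hτ⟩ := exists_aut j (σ : L ≃+* L)
      exact ⟨τ, (hτ x).trans (congrArg j hσ)⟩

end

end Pool.Agent.V8H88.AB
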