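import Pool.Agent.V8H88.AB.Core
import Pool.Agent.H977R3.CM.Aut
import Pool.Agent.W521.Descent
import Pool.Agent.W484.AA.Rank

/-!
# The roots of Weil polynomials and automorphisms of the complex numbers
-/

set_option autoImplicit false

namespace Pool.Agent.V8H88.AB

open Polynomial Pool.Agent.W521.Descent Pool.Agent.H977R3.CM Pool.Agent.W484.AA

/-- The finite set of the complex roots. -/
noncomputable def rts (f : ℤ[X]) : Finset ℂ := (f.map (algebraMap ℤ ℂ)).roots.toFinset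

theorem mem_rts {f : ℤ[X]} (hf : f.Monic) (z : ℂ) : z ∈ rts f ↔ aeval z f = 0 := by
  unfold rts
  rw [Multiset.mem_toFinset, mem_roots (hf.map _).ne_zero, IsRoot.def, eval_map]
  rfl

theorem coe_rts {f : ℤ[X]} (hf : f.Monic) : (rts f : Set ℂ) = {z : ℂ | aeval z f = 0} := by
  ext z
  rw [Finset.mem_coe, mem_rts hf]
  rfl

theorem aeval_map_ringHom (f : ℤ[X]) (σ : ℂ →+* ℂ) (z : ℂ) : aeval (σ z) f = σ (aeval z f) := by
  have h := Polynomial.hom_eval₂ f (algebraMap ℤ ℂ) σ z
  rw [RingHom.ext_int (σ.comp (algebraMap ℤ ℂ)) (algebraMap ℤ ℂ)] at h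
  exact h.symm

theorem mul_conj {q g : ℕ} {f : ℤ[X]} (hf : f ∈ weilPolys q g) {z : ℂ} (hz : aeval z f = 0) :
    z * starRingEnd ℂ z = q := by
  rw [Complex.mul_conj, Complex.normSq_eq_norm_sq, hf.2.2.2 z hz]
  norm_cast

theorem root_ne_zero' {q g : ℕ} (hq : 0 < q) {f : ℤ[X]} (hf : f ∈ weilPolys q g) {z : ℂ}
    (hz : aeval z f = 0) : z ≠ 0 := by
  rintro rfl
  have h := mul_conj hf hz
  rw [zero_mul] at h
  exact hq.ne' (by exact_mod_cast h.symm)

theorem nice {q g : ℕ} (hq : 0 < q) {f : ℤ[X]} (hf : f ∈ weilPolys q g) (hgen : IsGeneric f) :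
    Nice (rts f) where
  gal σ z hz := by
    rw [mem_rts hf.1] at hz ⊢
    have h := aeval_map_ringHom f (σ : ℂ →+* ℂ) z
    rw [hz, map_zero] at h
    exact h
  conj z hz := by
    rw [mem_rts hf.1] at hz ⊢
    rw [aeval_map_ringHom, hz, map_zero]
  comm σ z hz := by
    rw [mem_rts hf.1] at hz
    have h1 := mul_conj hf hz
    have h2 : aeval (σ z) f = 0 := by
      have h := aeval_map_ringHom f (σ : ℂ →+* ℂ) z
      rw [hz, map_zero] at h
      exact h
    have h3 := mul_conj hf h2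
    have h4 := congrArg σ h1
    rw [map_mul, map_natCast, ← h3] at h4
    exact mul_left_cancel₀ (root_ne_zero' hq hf h2) h4
  nt z hz N hN := hgen.not_real z ((mem_rts hf.1 z).1 hz) N hN
  irr := by
    rw [coe_rts hf.1]
    exact hgen.odd

theorem mem_of_fixed_aux {L : Type*} [Field L] [NumberField L] [IsGalois ℚ L] (j : L →+* ℂ)
    (E : IntermediateField ℚ ℂ) (hE : ∀ y ∈ E, ∃ x : L, j x = y) (x : L)
    (h : ∀ σ : ℂ ≃+* ℂ, (∀ y ∈ E, σ y = y) → σ (j x) = j x) : j x ∈ E := by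
  set E' : IntermediateField ℚ L := E.comap j.toRatAlgHom with hE'
  have hx' : x ∈ E' := by
    rw [← IsGalois.fixedField_fixingSubgroup E', IntermediateField.mem_fixedField_iff]
    intro g hg
    obtain ⟨σ, hσ⟩ := exists_aut j (g : L ≃+* L)
    rw [IntermediateField.mem_fixingSubgroup_iff] at hg
    have h1 := h σ (fun y hy => by
      obtain ⟨w, rfl⟩ := hE y hy
      rw [hσ]
      exact congrArg j (hg w hy))
    rw [hσ] at h1
    exact j.injective h1
  exact hx'

/-- The elements of a finite extension are characterized by the automorphisms of `ℂ`. -/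
theorem mem_of_fixed (E : IntermediateField ℚ ℂ) [FiniteDimensional ℚ E] (x : ℂ)
    (hx : IsIntegral ℚ x) (h : ∀ σ : ℂ ≃+* ℂ, (∀ y ∈ E, σ y = y) → σ x = x) : x ∈ E := by
  let b := Module.finBasis ℚ E
  obtain ⟨L, _, _, j, hj⟩ := exists_galois_of_rat
    (fun i : Option (Fin (Module.finrank ℚ E)) => i.elim x fun k => ((b k : E) : ℂ)) (by
      intro i
      cases i with
      | none => exact hx
      | some k => exact (Algebra.IsIntegral.isIntegral (R := ℚ) (b k)).map E.val)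
  obtain ⟨w, hw⟩ := hj none
  have hw' : j w = x := hw
  choose y hy using fun k => hj (some k)
  have hE : ∀ z ∈ E, ∃ v : L, j v = z := by
    intro z hz
    refine ⟨∑ k, (b.repr ⟨z, hz⟩ k : L) * y k, ?_⟩
    have h1 := congrArg E.val (b.sum_repr ⟨z, hz⟩)
    rw [map_sum] at h1 ⊢
    have h2 : E.val ⟨z, hz⟩ = z := rfl
    rw [h2] at h1
    refine Eq.trans ?_ h1
    refine Finset.sum_congr rfl fun k _ => ?_
    have h3 : j (y k) = ((b k : E) : ℂ) := hy k
    have h4 : (b.repr ⟨z, hz⟩ k) • b k = ((b.repr ⟨z, hz⟩ k : ℚ) : E) * b k := by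
      rw [Algebra.smul_def, eq_ratCast]
    rw [h4, map_mul, map_mul, h3, map_ratCast, map_ratCast]
    rfl
  rw [← hw']
  exact mem_of_fixed_aux j E hE w fun σ hσ => by
    rw [hw']
    exact h σ hσ

theorem isIntegral_root {f : ℤ[X]} (hf : f.Monic) {z : ℂ} (hz : aeval z f = 0) : IsIntegral ℚ z := by
  have h4 : IsIntegral ℤ z := ⟨f, hf, hz⟩
  exact h4.tower_top

theorem finiteDimensional_spl {f : ℤ[X]} (hf : f.Monic) : FiniteDimensional ℚ (spl f) := by
  have hfin : Finite {z : ℂ | aeval z f = 0} := by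
    rw [← coe_rts hf]
    exact Finite.of_fintype _
  exact IntermediateField.finiteDimensional_adjoin fun z hz => isIntegral_root hf hz

/-- The inclusion of splitting fields by means of automorphisms. -/
theorem spl_le (E : IntermediateField ℚ ℂ) [FiniteDimensional ℚ E] {f : ℤ[X]} (hf : f.Monic)
    (h : ∀ σ : ℂ ≃+* ℂ, (∀ y ∈ E, σ y = y) → Fixes (rts f) σ) : spl f ≤ E := by
  unfold spl
  rw [IntermediateField.adjoin_le_iff]
  intro z hz
  exact mem_of_fixed E z (isIntegral_root hf hz) fun σ hσ => h σ hσ z ((mem_rts hf z).2 hz)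

theorem exists_diff {f f' : ℤ[X]} (hf : f.Monic) (hf' : f'.Monic) (hne : spl f ≠ spl f') :
    ∃ σ, (Fixes (rts f) σ ∧ ¬ Fixes (rts f') σ) ∨ (Fixes (rts f') σ ∧ ¬ Fixes (rts f) σ) := by
  by_contra hno
  push Not at hno
  apply hne
  have key : ∀ f f' : ℤ[X], f.Monic → f'.Monic → (∀ σ, Fixes (rts f) σ → Fixes (rts f') σ) →
      spl f' ≤ spl f := by
    intro f f' hf hf' h
    have := finiteDimensional_spl hf
    refine spl_le (spl f) hf' fun σ hσ => h σ fun z hz => hσ z ?_
    exact IntermediateField.subset_adjoin _ _ ((mem_rts hf z).1 hz)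
  exact le_antisymm (key f' f hf' hf fun σ => (hno σ).2) (key f f' hf hf' fun σ => (hno σ).1)

/-- Automorphisms preserve the Galois extensions. -/
theorem map_mem (E : IntermediateField ℚ ℂ) [FiniteDimensional ℚ E] [IsGalois ℚ E] (σ : ℂ ≃+* ℂ)
    {y : ℂ} (hy : y ∈ E) : σ y ∈ E := by
  have : NumberField E := ⟨⟩
  obtain ⟨g, hg⟩ := exists_gal (E.val : E →+* ℂ) σ
  have h := hg ⟨y, hy⟩
  have h1 : σ y = ((g ⟨y, hy⟩ : E) : ℂ) := h
  rw [h1]
  exact (g ⟨y, hy⟩).2

end Pool.Agent.V8H88.AB
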