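import Mathlib

/-!
# The number of Weil numbers in a number field
-/

set_option autoImplicit false

namespace Pool.Agent.V8H88.AB

open Polynomial NumberField UniqueFactorizationMonoid

section ideals

variable (K : Type) [Field K] [NumberField K] (p : ℕ)

/-- The number of prime factors of `p`. -/
theorem card_normalizedFactors_le (hp : p.Prime) :
    Multiset.card (normalizedFactors (Ideal.span {(p : 𝓞 K)})) ≤ Module.finrank ℚ K := by
  classical
  have hp0 : (p : 𝓞 K) ≠ 0 := by exact_mod_cast hp.ne_zero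
  have hJ : Ideal.span {(p : 𝓞 K)} ≠ 0 := by
    rw [Ne, Ideal.zero_eq_bot, Ideal.span_singleton_eq_bot]
    exact hp0
  have hnorm : Ideal.absNorm (Ideal.span {(p : 𝓞 K)}) = p ^ Module.finrank ℚ K := by
    rw [Ideal.absNorm_span_singleton]
    have h1 : Algebra.norm ℤ (p : 𝓞 K) = (p : ℤ) ^ Module.finrank ℤ (𝓞 K) := by
      have h2 := Algebra.norm_algebraMap (S := 𝓞 K) (p : ℤ)
      rw [← h2]
      congr 1
      simp
    rw [h1, RingOfIntegers.rank, Int.natAbs_pow, Int.natAbs_natCast]
  have hge : ∀ P ∈ normalizedFactors (Ideal.span {(p : 𝓞 K)}), p ≤ Ideal.absNorm P := by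
    intro P hP
    have hprime := prime_of_normalized_factor P hP
    have hdvd := dvd_of_mem_normalizedFactors hP
    have h1 : Ideal.absNorm P ∣ p ^ Module.finrank ℚ K := by
      rw [← hnorm]
      exact map_dvd Ideal.absNorm hdvd
    obtain ⟨k, _, hk⟩ := (Nat.dvd_prime_pow hp).1 h1
    have hk0 : k ≠ 0 := by
      rintro rfl
      rw [pow_zero, Ideal.absNorm_eq_one_iff] at hk
      exact hprime.not_isUnit (by rw [hk, ← Ideal.one_eq_top]; exact isUnit_one)
    rw [hk]
    exact Nat.le_self_pow hk0 p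
  have hprod : ((normalizedFactors (Ideal.span {(p : 𝓞 K)})).map Ideal.absNorm).prod =
      p ^ Module.finrank ℚ K := by
    rw [← hnorm]
    conv_rhs => rw [← Ideal.prod_normalizedFactors_eq_self hJ]
    rw [map_multiset_prod]
  have hpow : ∀ s : Multiset (Ideal (𝓞 K)), (∀ P ∈ s, p ≤ Ideal.absNorm P) →
      p ^ Multiset.card s ≤ (s.map Ideal.absNorm).prod := by
    intro s
    induction s using Multiset.induction_on with
    | empty => simp
    | cons P s ih =>
      intro h
      rw [Multiset.card_cons, pow_succ', Multiset.map_cons, Multiset.prod_cons]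
      exact Nat.mul_le_mul (h P (Multiset.mem_cons_self P s))
        (ih fun Q hQ => h Q (Multiset.mem_cons_of_mem hQ))
  have h1 := hpow _ hge
  rw [hprod] at h1
  exact (Nat.pow_le_pow_iff_right hp.one_lt).1 h1

/-- The number of divisors of a power of `p`. -/
theorem ideals_count (hp : p.Prime) (a : ℕ) :
    {I : Ideal (𝓞 K) | I ∣ Ideal.span {(p : 𝓞 K)} ^ a}.Finite ∧
      {I : Ideal (𝓞 K) | I ∣ Ideal.span {(p : 𝓞 K)} ^ a}.ncard ≤
        (a * Module.finrank ℚ K + 1) ^ Module.finrank ℚ K := by
  classical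
  have hp0 : (p : 𝓞 K) ≠ 0 := by exact_mod_cast hp.ne_zero
  have hJ : Ideal.span {(p : 𝓞 K)} ≠ 0 := by
    rw [Ne, Ideal.zero_eq_bot, Ideal.span_singleton_eq_bot]
    exact hp0
  set t := normalizedFactors (Ideal.span {(p : 𝓞 K)}) with ht
  have hsub : {I : Ideal (𝓞 K) | I ∣ Ideal.span {(p : 𝓞 K)} ^ a} ⊆
      (fun s : Multiset (Ideal (𝓞 K)) => s.prod) '' ((Finset.Iic (a • t) : Finset _) : Set _) := by
    intro I hI
    have hI0 : I ≠ 0 := by
      rintro rfl
      exact pow_ne_zero a hJ (zero_dvd_iff.1 hI)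
    refine ⟨normalizedFactors I, ?_, Ideal.prod_normalizedFactors_eq_self hI0⟩
    rw [Finset.mem_coe, Finset.mem_Iic, ht, ← normalizedFactors_pow,
      ← dvd_iff_normalizedFactors_le_normalizedFactors hI0 (pow_ne_zero a hJ)]
    exact hI
  have hfin := (Finset.finite_toSet (Finset.Iic (a • t))).image
    (fun s : Multiset (Ideal (𝓞 K)) => s.prod)
  refine ⟨hfin.subset hsub, (Set.ncard_le_ncard hsub hfin).trans
    ((Set.ncard_image_le (Finset.finite_toSet _)).trans ?_)⟩
  rw [Set.ncard_coe_finset, Multiset.card_Iic]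
  have hcard := card_normalizedFactors_le K p hp
  have h1 : ∀ i ∈ (a • t).toFinset, (a • t).count i + 1 ≤ a * Module.finrank ℚ K + 1 := by
    intro i _
    rw [Multiset.count_nsmul]
    have h2 := (Multiset.count_le_card i t).trans hcard
    have h3 := Nat.mul_le_mul_left a h2
    omega
  have h2 : (a • t).toFinset.card ≤ Module.finrank ℚ K := by
    refine le_trans (Finset.card_le_card ?_) ((Multiset.toFinset_card_le t).trans hcard)
    intro i hi
    rw [Multiset.mem_toFinset] at hi ⊢
    exact Multiset.mem_of_mem_nsmul hi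
  calc ∏ i ∈ (a • t).toFinset, ((a • t).count i + 1) ≤
      (a * Module.finrank ℚ K + 1) ^ (a • t).toFinset.card := Finset.prod_le_pow_card _ _ _ h1
    _ ≤ _ := Nat.pow_le_pow_right (by omega) h2

end ideals

end Pool.Agent.V8H88.AB
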