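import Pool.Agent.V8H88.AB.Core

/-!
# The relations between eigenvalues: pairs
-/

set_option autoImplicit false

namespace Pool.Agent.V8H88.AB

theorem Sat.pow {Γ : Set ℂ} (hΓ : Sat Γ) {x : ℂ} (hx : x ∈ Γ) (hx0 : x ≠ 0) (n : ℕ) :
    x ^ n ∈ Γ := by
  induction n with
  | zero =>
    rw [pow_zero]
    exact hΓ.one hx hx0
  | succ n ih =>
    rw [pow_succ]
    exact hΓ.mul _ ih _ hx

theorem Sat.zpow {Γ : Set ℂ} (hΓ : Sat Γ) {x : ℂ} (hx : x ∈ Γ) (hx0 : x ≠ 0) (n : ℤ) :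
    x ^ n ∈ Γ := by
  rcases Int.natAbs_eq n with h | h
  · rw [h, zpow_natCast]
    exact hΓ.pow hx hx0 _
  · rw [h, zpow_neg, zpow_natCast]
    exact hΓ.inv _ (hΓ.pow hx hx0 _)

section

variable {ι : Type*} [DecidableEq ι] {Ω : ι → Finset ℂ} (hΩ : ∀ i, Nice (Ω i)) (e : ι → ℕ)

/-- The sum of the odd functions given by a list of elements. -/
noncomputable def cc (ys : List (Σ i, {z // z ∈ Ω i})) (i : ι) : ℂ → ℤ :=
  (ys.map (fun y => if y.1 = i then dl (y.2 : ℂ) else 0)).sum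

/-- The value. -/
noncomputable def val (y : Σ i, {z // z ∈ Ω i}) : ℂ := (y.2 : ℂ) ^ e y.1

include hΩ

theorem isOdd_cc (ys : List (Σ i, {z // z ∈ Ω i})) (i : ι) : IsOdd (Ω i) (cc ys i) := by
  unfold cc
  induction ys with
  | nil => exact ⟨fun z _ => rfl, fun z => by simp⟩
  | cons y ys ih =>
    rw [List.map_cons, List.sum_cons]
    have h1 : IsOdd (Ω i : Set ℂ) (if y.1 = i then dl (y.2 : ℂ) else 0) := by
      split_ifs with h
      · subst h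
        exact isOdd_dl (hΩ _) y.2.2
      · exact ⟨fun z _ => rfl, fun z => by simp⟩
    refine ⟨fun z hz => ?_, fun z => ?_⟩
    · rw [Pi.add_apply, h1.1 z hz, ih.1 z hz, add_zero]
    · rw [Pi.add_apply, Pi.add_apply, h1.2 z, ih.2 z]
      ring

theorem prod_ev_cc (J : Finset ι) (ys : List (Σ i, {z // z ∈ Ω i})) (hys : ∀ y ∈ ys, y.1 ∈ J) :
    ∏ i ∈ J, ev (Ω i) (e i) (cc ys i) =
      (ys.map (fun y => val e y / (starRingEnd ℂ (y.2 : ℂ)) ^ e y.1)).prod := by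
  induction ys with
  | nil =>
    rw [List.map_nil, List.prod_nil]
    refine Finset.prod_eq_one fun i _ => ?_
    exact ev_zero (Ω := Ω i) (e i)
  | cons y ys ih =>
    rw [List.map_cons, List.prod_cons, ← ih fun y' hy' => hys y' (List.mem_cons_of_mem _ hy')]
    have h1 : ∀ i ∈ J, ev (Ω i) (e i) (cc (y :: ys) i) =
        ev (Ω i) (e i) (if y.1 = i then dl (y.2 : ℂ) else 0) * ev (Ω i) (e i) (cc ys i) := by
      intro i _
      rw [← ev_add (hΩ i)]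
      rfl
    rw [Finset.prod_congr rfl h1, Finset.prod_mul_distrib]
    congr 1
    rw [Finset.prod_eq_single y.1]
    · rw [if_pos rfl, ev_dl (hΩ _) _ y.2.2]
      rfl
    · intro i _ hi
      rw [if_neg (Ne.symm hi), ev_zero]
    · intro h
      exact absurd (hys y (by simp)) h

theorem cc_pos (ys : List (Σ i, {z // z ∈ Ω i})) (y₀ : Σ i, {z // z ∈ Ω i}) (h₀ : y₀ ∈ ys)
    (hno : ∀ y ∈ ys, y ≠ ⟨y₀.1, ⟨starRingEnd ℂ (y₀.2 : ℂ), (hΩ _).conj _ y₀.2.2⟩⟩) :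
    0 < cc ys y₀.1 (y₀.2 : ℂ) := by
  have hnn : ∀ ys : List (Σ i, {z // z ∈ Ω i}), (∀ y ∈ ys, y ≠ ⟨y₀.1,
      ⟨starRingEnd ℂ (y₀.2 : ℂ), (hΩ _).conj _ y₀.2.2⟩⟩) → 0 ≤ cc ys y₀.1 (y₀.2 : ℂ) ∧
        (y₀ ∈ ys → 0 < cc ys y₀.1 (y₀.2 : ℂ)) := by
    intro ys
    induction ys with
    | nil =>
      intro _
      refine ⟨le_rfl, fun h => ?_⟩
      simp at h
    | cons y ys ih =>
      intro hno
      obtain ⟨h1, h2⟩ := ih fun y' hy' => hno y' (List.mem_cons_of_mem _ hy')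
      have h3 : cc (y :: ys) y₀.1 (y₀.2 : ℂ) =
          (if y.1 = y₀.1 then dl (y.2 : ℂ) else 0 : ℂ → ℤ) (y₀.2 : ℂ) + cc ys y₀.1 (y₀.2 : ℂ) := rfl
      have h4 : (if y.1 = y₀.1 then dl (y.2 : ℂ) else 0 : ℂ → ℤ) (y₀.2 : ℂ) =
          if y = y₀ then 1 else 0 := by
        obtain ⟨i, z, hz⟩ := y
        obtain ⟨i₀, z₀, hz₀⟩ := y₀
        by_cases hi : i = i₀
        · subst hi
          have hne := hno ⟨i, ⟨z, hz⟩⟩ (by simp)
          simp only [Ne, Sigma.mk.injEq, heq_eq_eq, true_and, Subtype.mk.injEq] at hne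
          simp only [if_true, Sigma.mk.injEq, heq_eq_eq, true_and, Subtype.mk.injEq]
          rw [dl, Pi.sub_apply]
          have h5 : z₀ ≠ starRingEnd ℂ z := by
            intro h6
            apply hne
            rw [h6, Complex.conj_conj]
          rw [Pi.single_eq_of_ne h5, sub_zero]
          by_cases hzz : z = z₀
          · rw [if_pos hzz, hzz, Pi.single_eq_same]
          · rw [if_neg hzz, Pi.single_eq_of_ne (Ne.symm hzz)]
        · have h5 : (⟨i, ⟨z, hz⟩⟩ : Σ i, {z // z ∈ Ω i}) ≠ ⟨i₀, ⟨z₀, hz₀⟩⟩ := by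
            intro h6
            exact hi (congrArg Sigma.fst h6)
          rw [if_neg h5]
          simp only [if_neg hi]
          rfl
      rw [h3, h4]
      constructor
      · split_ifs <;> omega
      · intro h5
        rcases List.mem_cons.1 h5 with h6 | h6
        · rw [if_pos h6.symm]
          omega
        · have h7 := h2 h6
          split_ifs <;> omega
  exact (hnn ys hno).2 h₀

/-- **The relations.** -/
theorem pair_of_core (Q : ℂ) (hQ : Q ≠ 0)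
    (hQe : ∀ i, ∀ z ∈ Ω i, z ^ e i * (starRingEnd ℂ z) ^ e i = Q)
    (hdiff : ∀ i j, i ≠ j → ∃ σ, (Fixes (Ω i) σ ∧ ¬ Fixes (Ω j) σ) ∨
      (Fixes (Ω j) σ ∧ ¬ Fixes (Ω i) σ)) {Γ : Set ℂ} (hΓ : Sat Γ)
    (hno : ∀ i, ¬ ∀ d, IsOdd (Ω i) d → ev (Ω i) (e i) d ∈ Γ) (hQΓ : Q ∈ Γ) (ρ : ℂ) (hρ : ρ ∈ Γ)
    (hρ0 : ρ ≠ 0) (n : ℕ) (c : ℤ) (s : ℕ) (hs : 0 < s) (hn : 0 < n)
    (ys : List (Σ i, {z // z ∈ Ω i})) (hlen : ys.length = n)
    (hrel : ((ys.map (val e)).prod * ρ) ^ s = (Q ^ c) ^ s) :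
    ¬ ys.Pairwise (fun y y' => val e y * val e y' ≠ Q) := by
  intro hpw
  have hval0 : ∀ y : Σ i, {z // z ∈ Ω i}, val e y ≠ 0 := fun y =>
    pow_ne_zero _ ((hΩ _).ne_zero y.2.2)
  have hprod0 : (ys.map (val e)).prod ≠ 0 := by
    rw [Ne, List.prod_eq_zero_iff]
    intro h
    rw [List.mem_map] at h
    obtain ⟨y, _, hy⟩ := h
    exact hval0 y hy
  -- the product lies in `Γ`
  have h1 : (ys.map (val e)).prod ∈ Γ := by
    refine hΓ.root _ hprod0 s hs ?_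
    have h2 : (ys.map (val e)).prod ^ s = (Q ^ c) ^ s * (ρ ^ s)⁻¹ := by
      rw [← hrel, mul_pow, mul_assoc, mul_inv_cancel₀ (pow_ne_zero _ hρ0), mul_one]
    rw [h2]
    exact hΓ.mul _ (hΓ.pow (hΓ.zpow hQΓ hQ c) (zpow_ne_zero _ hQ) s) _
      (hΓ.inv _ (hΓ.pow hρ hρ0 s))
  have h2 : ∀ ys : List (Σ i, {z // z ∈ Ω i}),
      (ys.map (fun y => val e y / (starRingEnd ℂ (y.2 : ℂ)) ^ e y.1)).prod =
        (ys.map (val e)).prod ^ 2 * (Q ^ ys.length)⁻¹ := by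
    intro ys
    induction ys with
    | nil => simp
    | cons y ys ih =>
      have h3 : val e y / (starRingEnd ℂ (y.2 : ℂ)) ^ e y.1 = val e y ^ 2 * Q⁻¹ := by
        have h4 := hQe y.1 (y.2 : ℂ) y.2.2
        have h5 : (starRingEnd ℂ (y.2 : ℂ)) ^ e y.1 ≠ 0 :=
          pow_ne_zero _ ((hΩ _).ne_zero ((hΩ _).conj _ y.2.2))
        have h6 : val e y = (y.2 : ℂ) ^ e y.1 := rfl
        have h7 := hval0 y
        rw [← h4, ← h6]
        field_simp
      rw [List.map_cons, List.prod_cons, ih, h3, List.map_cons, List.prod_cons, List.length_cons,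
        pow_succ Q]
      field_simp
  -- the function is zero
  have h3 : cc ys = 0 := by
    by_contra hcc
    obtain ⟨i, _, hi⟩ := core Ω hΩ e hdiff hΓ (ys.map Sigma.fst).toFinset (cc ys)
      (isOdd_cc hΩ ys) (fun i hi => by
        unfold cc
        refine List.sum_eq_zero fun x hx => ?_
        rw [List.mem_map] at hx
        obtain ⟨y, hy, rfl⟩ := hx
        rw [if_neg]
        rintro rfl
        exact hi (List.mem_toFinset.2 (List.mem_map.2 ⟨y, hy, rfl⟩))) hcc (by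
        rw [prod_ev_cc hΩ e _ ys fun y hy => List.mem_toFinset.2 (List.mem_map.2 ⟨y, hy, rfl⟩), h2]
        exact hΓ.mul _ (hΓ.pow h1 hprod0 2) _ (hΓ.inv _ (hΓ.pow hQΓ hQ _)))
    exact hno i hi
  -- the pair
  obtain ⟨y₀, h₀⟩ : ∃ y, y ∈ ys := List.exists_mem_of_length_pos (by omega)
  have h4 : ∃ y ∈ ys, y = ⟨y₀.1, ⟨starRingEnd ℂ (y₀.2 : ℂ), (hΩ _).conj _ y₀.2.2⟩⟩ := by
    by_contra hcon
    push Not at hcon
    have h5 := cc_pos hΩ ys y₀ h₀ hcon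
    rw [h3] at h5
    exact lt_irrefl _ h5
  obtain ⟨y, hy, hyc⟩ := h4
  have hne : y₀ ≠ y := by
    intro h
    rw [hyc] at h
    have h5 : (y₀.2 : ℂ) = starRingEnd ℂ (y₀.2 : ℂ) := by
      obtain ⟨i, z, hz⟩ := y₀
      simp only [Sigma.mk.injEq, heq_eq_eq, true_and, Subtype.mk.injEq] at h
      exact h
    exact (hΩ _).ne_conj y₀.2.2 h5
  have hsymm : Std.Symm fun y y' : Σ i, {z // z ∈ Ω i} => val e y * val e y' ≠ Q :=
    ⟨fun a b h => by rwa [mul_comm]⟩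
  refine hpw.forall h₀ hy hne ?_
  rw [hyc]
  exact hQe y₀.1 (y₀.2 : ℂ) y₀.2.2

end

end Pool.Agent.V8H88.AB
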