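import Pool.Agent.V8H88.AB.Gal
import Pool.Agent.V8H88.AB.Pair
import Pool.Agent.W484.TB.Pair

/-!
# Numbers of small rank over a number field
-/

set_option autoImplicit false

namespace Pool.Agent.V8H88.AB

open Polynomial Module Pool.Agent.W521.Descent Pool.Agent.W484.AA Pool.Agent.W484.BB
  Pool.Agent.W484.TB

section gam

variable (E : IntermediateField ℚ ℂ) {r : ℕ} (u : Fin r → ℂ)

/-- A power is a product of an element of `E` and of powers of the `u j`. -/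
def InU (x : ℂ) : Prop :=
  ∃ (N : ℕ) (y : ℂ) (m : Fin r → ℤ), 0 < N ∧ y ∈ E ∧ y ≠ 0 ∧ x ^ N = y * ∏ j, u j ^ m j

/-- All conjugates have this property. -/
def gam : Set ℂ := {x | ∀ σ : ℂ ≃+* ℂ, InU E u (σ x)}

variable {E} {u}

theorem prod_pow (m : Fin r → ℤ) (k : ℕ) : (∏ j, u j ^ m j) ^ k = ∏ j, u j ^ (m j * k) := by
  rw [← Finset.prod_pow]
  refine Finset.prod_congr rfl fun j _ => ?_
  rw [zpow_mul, zpow_natCast]

theorem prod_add (hu : ∀ j, u j ≠ 0) (m m' : Fin r → ℤ) :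
    (∏ j, u j ^ m j) * ∏ j, u j ^ m' j = ∏ j, u j ^ (m j + m' j) := by
  rw [← Finset.prod_mul_distrib]
  refine Finset.prod_congr rfl fun j _ => ?_
  rw [zpow_add₀ (hu j)]

theorem InU.mul (hu : ∀ j, u j ≠ 0) {x x' : ℂ} (hx : InU E u x) (hx' : InU E u x') :
    InU E u (x * x') := by
  obtain ⟨N, y, m, hN, hy, hy0, h⟩ := hx
  obtain ⟨N', y', m', hN', hy', hy0', h'⟩ := hx'
  refine ⟨N * N', y ^ N' * y' ^ N, fun j => m j * N' + m' j * N, Nat.mul_pos hN hN',
    mul_mem (pow_mem hy _) (pow_mem hy' _), mul_ne_zero (pow_ne_zero _ hy0) (pow_ne_zero _ hy0'), ?_⟩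
  rw [← prod_add hu, ← prod_pow, ← prod_pow, mul_pow, pow_mul, h, mul_comm N N', pow_mul x', h']
  ring

theorem InU.inv {x : ℂ} (hx : InU E u x) : InU E u x⁻¹ := by
  obtain ⟨N, y, m, hN, hy, hy0, h⟩ := hx
  refine ⟨N, y⁻¹, fun j => - m j, hN, inv_mem hy, inv_ne_zero hy0, ?_⟩
  rw [inv_pow, h, mul_inv, ← Finset.prod_inv_distrib]
  congr 1
  refine Finset.prod_congr rfl fun j _ => ?_
  rw [zpow_neg]

theorem sat_gam (hu : ∀ j, u j ≠ 0) : Sat (gam E u) where
  mul x hx y hy σ := by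
    rw [map_mul]
    exact (hx σ).mul hu (hy σ)
  inv x hx σ := by
    rw [map_inv₀]
    exact (hx σ).inv
  gal x hx τ σ := hx (τ.trans σ)
  root x _ K hK h σ := by
    obtain ⟨N, y, m, hN, hy, hy0, h'⟩ := h σ
    exact ⟨K * N, y, m, Nat.mul_pos hK hN, hy, hy0, by rw [pow_mul, ← map_pow, h']⟩

theorem mem_gam_of_roots {χ : ℚ[X]} (h : ∀ ρ : ℂ, aeval ρ χ = 0 → InU E u ρ) {ρ : ℂ}
    (hρ : aeval ρ χ = 0) : ρ ∈ gam E u := by
  intro σ
  apply h
  have h1 := Polynomial.hom_eval₂ χ (algebraMap ℚ ℂ) (σ : ℂ →+* ℂ) ρ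
  rw [RingHom.ext_rat ((σ : ℂ →+* ℂ).comp (algebraMap ℚ ℂ)) (algebraMap ℚ ℂ)] at h1
  have h2 : eval₂ (algebraMap ℚ ℂ) ρ χ = 0 := hρ
  rw [h2, map_zero] at h1
  exact h1.symm

theorem natCast_mem_gam {n : ℕ} (hn : n ≠ 0) : (n : ℂ) ∈ gam E u := by
  intro σ
  rw [map_natCast]
  exact ⟨1, n, 0, one_pos, natCast_mem _ n, by exact_mod_cast hn, by simp⟩

end gam

/-- The number of roots. -/
theorem card_rts {q g : ℕ} {f : ℤ[X]} (hf : f ∈ weilPolys q g)
    (hirr : Irreducible (f.map (Int.castRingHom ℚ))) : (rts f).card = 2 * g := by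
  have h1 := hirr.separable
  have h2 := h1.map (f := algebraMap ℚ ℂ)
  rw [Polynomial.map_map, RingHom.ext_int ((algebraMap ℚ ℂ).comp (Int.castRingHom ℚ))
    (algebraMap ℤ ℂ)] at h2
  unfold rts
  rw [Multiset.toFinset_card_of_nodup (nodup_roots h2),
    ← (IsAlgClosed.splits (f.map (algebraMap ℤ ℂ))).natDegree_eq_card_roots, hf.1.natDegree_map,
    hf.2.1]

/-- Half of the roots are in the upper half plane. -/
theorem card_upper {Ω : Finset ℂ} (hΩ : Nice Ω) :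
    Ω.card = 2 * (Ω.filter fun z => 0 < z.im).card := by
  classical
  have h1 : Ω = (Ω.filter fun z => 0 < z.im) ∪ (Ω.filter fun z => 0 < z.im).image
      (starRingEnd ℂ) := by
    ext z
    rw [Finset.mem_union, Finset.mem_filter, Finset.mem_image]
    constructor
    · intro hz
      rcases lt_trichotomy z.im 0 with h | h | h
      · refine Or.inr ⟨starRingEnd ℂ z, Finset.mem_filter.2 ⟨hΩ.conj z hz, ?_⟩,
          Complex.conj_conj z⟩
        rw [Complex.conj_im]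
        linarith
      · exact absurd (Complex.conj_eq_iff_im.2 h).symm (hΩ.ne_conj hz)
      · exact Or.inl ⟨hz, h⟩
    · rintro (⟨hz, _⟩ | ⟨w, hw, rfl⟩)
      · exact hz
      · exact hΩ.conj _ (Finset.mem_filter.1 hw).1
  have h2 : Disjoint (Ω.filter fun z => 0 < z.im) ((Ω.filter fun z => 0 < z.im).image
      (starRingEnd ℂ)) := by
    rw [Finset.disjoint_left]
    intro z hz hz'
    obtain ⟨w, hw, rfl⟩ := Finset.mem_image.1 hz'
    have h3 := (Finset.mem_filter.1 hz).2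
    have h4 := (Finset.mem_filter.1 hw).2
    rw [Complex.conj_im] at h3
    linarith
  calc Ω.card = ((Ω.filter fun z => 0 < z.im) ∪ (Ω.filter fun z => 0 < z.im).image
      (starRingEnd ℂ)).card := by rw [← h1]
    _ = 2 * (Ω.filter fun z => 0 < z.im).card := by
      rw [Finset.card_union_of_disjoint h2,
        Finset.card_image_of_injective _ (starRingEnd ℂ).injective]
      ring

theorem ev_sum {Ω : Finset ℂ} (hΩ : Nice Ω) (e : ℕ) {κ : Type*} (s : Finset κ)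
    (c : κ → ℂ → ℤ) : ev Ω e (∑ k ∈ s, c k) = ∏ k ∈ s, ev Ω e (c k) := by
  classical
  induction s using Finset.induction_on with
  | empty => rw [Finset.sum_empty, Finset.prod_empty, ev_zero]
  | insert k s hk ih => rw [Finset.sum_insert hk, Finset.prod_insert hk, ev_add hΩ, ih]

theorem isOdd_sum {Ω : Set ℂ} {κ : Type*} (s : Finset κ) (c : κ → ℂ → ℤ)
    (hc : ∀ k ∈ s, IsOdd Ω (c k)) : IsOdd Ω (∑ k ∈ s, c k) := by
  refine ⟨fun z hz => ?_, fun z => ?_⟩
  · rw [Finset.sum_apply]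
    exact Finset.sum_eq_zero fun k hk => (hc k hk).1 z hz
  · rw [Finset.sum_apply, Finset.sum_apply, ← Finset.sum_neg_distrib]
    exact Finset.sum_congr rfl fun k hk => (hc k hk).2 z

theorem isOdd_zsmul {Ω : Set ℂ} (n : ℤ) {c : ℂ → ℤ} (hc : IsOdd Ω c) : IsOdd Ω (n • c) := by
  refine ⟨fun z hz => ?_, fun z => ?_⟩
  · rw [Pi.smul_apply, hc.1 z hz, smul_zero]
  · rw [Pi.smul_apply, Pi.smul_apply, hc.2 z, smul_neg]

/-- **The values of the odd functions are not all of small rank.** -/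
theorem not_all (E : IntermediateField ℚ ℂ) [FiniteDimensional ℚ E] [IsGalois ℚ E] {r : ℕ}
    (u : Fin r → ℂ) (hu : ∀ j, u j ≠ 0) {q g : ℕ} (hq : 0 < q) {f : ℤ[X]}
    (hf : f ∈ weilPolys q g) (hgen : IsGeneric f) (hr : r < g) (hne : ¬ spl f ≤ E) {e : ℕ}
    (he : 0 < e) : ¬ ∀ d, IsOdd (rts f) d → ev (rts f) e d ∈ gam E u := by
  classical
  intro hall
  have hΩ := nice hq hf hgen
  have hcard := card_rts hf hgen.irreducible
  have hup := card_upper hΩ
  set Θ : Finset ℂ := (rts f).filter fun z => 0 < z.im with hΘ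
  have hΘc : Θ.card = g := by omega
  have hΘm : ∀ z ∈ Θ, z ∈ rts f := fun z hz => (Finset.mem_filter.1 hz).1
  have hU : ∀ z : Θ, InU E u (ev (rts f) e (dl (z : ℂ))) := fun z =>
    hall _ (isOdd_dl hΩ (hΘm z z.2)) (RingEquiv.refl ℂ)
  choose N y m hN hy hy0 h using hU
  obtain ⟨b, hb0, hb⟩ := exists_int_relation r (by
    rw [Fintype.card_coe, hΘc]
    exact hr) m
  obtain ⟨z₀, hz₀⟩ : ∃ z, b z ≠ 0 := by
    by_contra hall0
    push Not at hall0
    exact hb0 (funext hall0)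
  set c : ℂ → ℤ := ∑ z : Θ, (b z * N z) • dl (z : ℂ) with hc
  have hodd : IsOdd (rts f : Set ℂ) c :=
    isOdd_sum _ _ fun z _ => isOdd_zsmul _ (isOdd_dl hΩ (hΘm z z.2))
  have hc0 : c ≠ 0 := by
    intro h0
    have h1 := congrFun h0 (z₀ : ℂ)
    rw [hc, Finset.sum_apply, Finset.sum_eq_single z₀] at h1
    · rw [Pi.smul_apply, dl_self hΩ (hΘm z₀ z₀.2), smul_eq_mul, mul_one] at h1
      have h2 := hN z₀
      exact mul_ne_zero hz₀ (by exact_mod_cast h2.ne') h1
    · intro z _ hz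
      have h2 : (z₀ : ℂ) ≠ z := fun h => hz (Subtype.ext h.symm)
      have h3 : (z₀ : ℂ) ≠ starRingEnd ℂ (z : ℂ) := by
        intro h
        have h4 := (Finset.mem_filter.1 z₀.2).2
        have h5 := (Finset.mem_filter.1 z.2).2
        rw [h, Complex.conj_im] at h4
        linarith
      rw [Pi.smul_apply, dl, Pi.sub_apply, Pi.single_eq_of_ne h2, Pi.single_eq_of_ne h3, sub_zero,
        smul_zero]
    · intro h
      exact absurd (Finset.mem_univ _) h
  -- the value lies in `E`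
  have hev : ev (rts f) e c ∈ E := by
    have h1 : ev (rts f) e c = ∏ z : Θ, y z ^ b z := by
      rw [hc, ev_sum hΩ]
      have h2 : ∀ z : Θ, ev (rts f) e ((b z * N z) • dl (z : ℂ)) =
          y z ^ b z * ∏ t, u t ^ (b z * m z t) := by
        intro z
        rw [ev_zsmul, mul_comm (b z) (N z : ℤ), zpow_mul, zpow_natCast, h z, mul_zpow]
        congr 1
        rw [← Finset.prod_zpow]
        refine Finset.prod_congr rfl fun t _ => ?_
        rw [← zpow_mul, mul_comm (m z t)]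
      rw [Finset.prod_congr rfl fun z _ => h2 z, Finset.prod_mul_distrib, Finset.prod_comm]
      have h3 : ∏ t, ∏ z : Θ, u t ^ (b z * m z t) = 1 := by
        refine Finset.prod_eq_one fun t _ => ?_
        have h4 : ∀ S : Finset Θ, ∏ z ∈ S, u t ^ (b z * m z t) =
            u t ^ (∑ z ∈ S, b z * m z t) := by
          intro S
          induction S using Finset.induction_on with
          | empty => simp
          | insert z S hz ih => rw [Finset.prod_insert hz, Finset.sum_insert hz, ih,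
              zpow_add₀ (hu t)]
        rw [h4, hb t, zpow_zero]
      rw [h3, mul_one]
    rw [h1]
    exact prod_mem fun z _ => zpow_mem (hy z) _
  -- the automorphisms over `E`
  have hne' : (rts f).Nonempty := by
    rw [← Finset.card_pos, hcard]
    omega
  apply hne
  refine spl_le E hf.1 fun σ hσ z hz => ?_
  refine invariance hΩ (fun σ => ∀ y ∈ E, σ y = y) ?_ c hodd hc0 ?_ σ hσ z hz
  · intro σ τ hσ y hy
    change τ.symm (σ (τ y)) = y
    rw [hσ _ (map_mem E τ hy), τ.symm_apply_apply]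
  · intro σ hσ
    have h1 : σ.symm (ev (rts f) e c) = ev (rts f) e c := by
      rw [RingEquiv.symm_apply_eq]
      exact (hσ _ hev).symm
    rw [map_ev_symm hΩ] at h1
    have h2 : ev (rts f) e (c ∘ σ - c) ^ 1 = 1 := by
      rw [ev_sub hΩ, h1, mul_inv_cancel₀ (ev_ne_zero hΩ e c), one_pow]
    have h3 := hodd.comp hΩ σ
    exact sub_eq_zero.1 (eq_zero_of_ev hΩ he hne' _ ⟨fun z hz => by
      rw [Pi.sub_apply, h3.1 z hz, hodd.1 z hz, sub_zero], fun z => by
      rw [Pi.sub_apply, Pi.sub_apply, h3.2 z, hodd.2 z]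
      ring⟩ 1 one_pos h2)

section main

variable {ι : Type} {p m : ℕ} {a g : ι → ℕ} {f : ι → ℤ[X]}

/-- **The relations between the eigenvalues.** -/
theorem exactPair (hp : 0 < p) (hm : 0 < m) (ham : ∀ i, a i ∣ m)
    (hf : ∀ i, f i ∈ weilPolys (p ^ a i) (g i)) (hgen : ∀ i, IsGeneric (f i))
    (hdiff : Pairwise fun i j => spl (f i) ≠ spl (f j))
    (E : IntermediateField ℚ ℂ) [FiniteDimensional ℚ E] [IsGalois ℚ E] (r : ℕ)
    (hE : ∀ i, r < g i ∧ ¬ spl (f i) ≤ E) (χ : ℚ[X])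
    (hrank : RankLEOver E r {ρ : ℂ | aeval ρ χ = 0}) (ρ : ℂ) (hρ : aeval ρ χ = 0) :
    ExactPair (fun y : Σ i, {z : ℂ // z ∈ rts (f i)} => (y.2 : ℂ) ^ (m / a y.1)) ((p : ℂ) ^ m) ρ := by
  classical
  have hρ0 : ρ ≠ 0 := by
    rintro rfl
    exact zero_not_rank_over hrank hρ
  obtain ⟨u, hu0, hu⟩ := hrank
  have hpa : ∀ i, 0 < p ^ a i := fun i => pow_pos hp _
  have hΩ : ∀ i, Nice (rts (f i)) := fun i => nice (hpa i) (hf i) (hgen i)
  have hpm : (p : ℂ) ^ m ≠ 0 := pow_ne_zero _ (by exact_mod_cast hp.ne')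
  intro n c s hs hn ys hlen hrel
  refine pair_of_core hΩ (fun i => m / a i) ((p : ℂ) ^ m) hpm ?_
    (fun i j hij => exists_diff (hf i).1 (hf j).1 (hdiff hij)) (sat_gam hu0)
    (fun i => not_all E u hu0 (hpa i) (hf i) (hgen i) (hE i).1 (hE i).2
      (Nat.div_pos (Nat.le_of_dvd hm (ham i)) (Nat.pos_of_dvd_of_pos (ham i) hm))) ?_ ρ
    (mem_gam_of_roots hu hρ) hρ0 n c s hs hn ys hlen hrel
  · intro i z hz
    rw [← mul_pow, mul_conj (hf i) ((mem_rts (hf i).1 z).1 hz)]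
    push_cast
    rw [← pow_mul, Nat.mul_div_cancel' (ham i)]
  · have h := natCast_mem_gam (E := E) (u := u) (n := p ^ m) (pow_pos hp m).ne'
    push_cast at h
    exact h

/-- **The criterion.** -/
theorem tateSplits (hp : 0 < p) (hm : 0 < m) (ham : ∀ i, a i ∣ m)
    (hf : ∀ i, f i ∈ weilPolys (p ^ a i) (g i)) (hgen : ∀ i, IsGeneric (f i))
    (hdiff : Pairwise fun i j => spl (f i) ≠ spl (f j))
    (V : Type) [AddCommGroup V] [Module ℂ V] [FiniteDimensional ℂ V] (F : V →ₗ[ℂ] V)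
    (hF : Submodule.span ℂ {v : V | ∃ i, ∃ z : ℂ, aeval z (f i) = 0 ∧ F v = z ^ (m / a i) • v} = ⊤)
    (E : IntermediateField ℚ ℂ) [FiniteDimensional ℚ E] [IsGalois ℚ E] (r : ℕ)
    (hE : ∀ i, r < g i ∧ ¬ spl (f i) ≤ E)
    (H : Type) [AddCommGroup H] [Module ℂ H] [FiniteDimensional ℂ H] (G : H →ₗ[ℂ] H)
    (hG : SmallRankOver E r G) : TateSplits ((p : ℂ) ^ m) F G := by
  intro n c N hN v hv
  have hQ : (p : ℂ) ^ m ≠ 0 := pow_ne_zero _ (by exact_mod_cast hp.ne')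
  obtain ⟨χ, hχ, hχe, hrank⟩ := hG
  refine mem_mixedProducts F _ ?_ ((p : ℂ) ^ m) hQ G (fun ρ hρ => exactPair hp hm ham hf hgen hdiff
    E r hE χ hrank ρ (hχe ρ hρ)) n c N hN v hv
  rw [eq_top_iff, ← hF]
  refine Submodule.span_mono ?_
  rintro v ⟨i, z, hz, hv⟩
  exact ⟨⟨i, ⟨z, (mem_rts (hf i).1 z).2 hz⟩⟩, hv⟩

end main

end Pool.Agent.V8H88.AB
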