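import Pool.Agent.V8H88.AB.Defs
import Pool.Agent.W484.TB.Pair

/-!
# Tate classes on products of abelian varieties with varieties of small rank: definition
-/

set_option autoImplicit false

namespace Pool.Agent.V8H88.AB

open Polynomial Pool.Agent.W484.AA Pool.Agent.W484.TB

/-- The formula for all spaces `V` spanned by eigenvectors whose eigenvalues are the `m / a i`-th
powers of the complex roots of the polynomials `f i`, and all spaces `H` of rank at most `r`
over `E`. -/
def TateForProducts {ι : Type} (p m : ℕ) (a : ι → ℕ) (f : ι → ℤ[X]) (E : IntermediateField ℚ ℂ)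
    (r : ℕ) : Prop :=
  ∀ (V : Type) [AddCommGroup V] [Module ℂ V] [FiniteDimensional ℂ V] (F : V →ₗ[ℂ] V),
    Submodule.span ℂ {v : V | ∃ i, ∃ z : ℂ, aeval z (f i) = 0 ∧ F v = z ^ (m / a i) • v} = ⊤ →
    ∀ (H : Type) [AddCommGroup H] [Module ℂ H] [FiniteDimensional ℂ H] (G : H →ₗ[ℂ] H),
      SmallRankOver E r G → TateSplits ((p : ℂ) ^ m) F G

end Pool.Agent.V8H88.AB
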