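import Pool.Agent.V8H88.AB.Weil
import Pool.Agent.V8H88.AB.Flip
import Pool.Agent.V8H88.AB.Rank
import Pool.Agent.V8H88.AB.Stm

/-!
# Products of generic abelian varieties with different splitting fields: the theorem
-/

set_option autoImplicit false

namespace Pool.Agent.V8H88.AB

open Polynomial Pool.Agent.W521.Descent Pool.Agent.W521.Count Pool.Agent.W521.Bad
  Pool.Agent.W521.Frob Pool.Agent.W521.Density

/-- **The count of the polynomials that are not generic.** -/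
theorem generic_count (g : ℕ) (hg : 0 < g) : ∃ C : ℝ, ∀ q : ℕ, IsPrimePow q → ∀ S : Set ℤ[X],
    ordinaryWeilPolys q g ⊆ S → S ⊆ weilPolys q g →
      ({f ∈ S | ¬ IsGeneric f}.ncard : ℝ) ≤
        C * (Real.log q * (q : ℝ) ^ (-(1 / 6) : ℝ)) * (S.ncard : ℝ) := by
  classical
  obtain ⟨C, hC, h⟩ := Pool.Agent.W521.Total.main_count (I := Unit) (fun _ => g) fun _ => hg
  refine ⟨C, fun q hq S hS1 hS2 => ?_⟩
  have h1 := h q hq (fun f => f () ∈ weilPolys q g → IsGeneric (f ())) (fun x hx hw =>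
    isGeneric_of_flips hq.pos (fun i => mkPoly_monic g _) () (hx.2.1 ()) (hx.1 ()) (hx.2.2 ()) hw)
  have hfin : {f : Unit → ℤ[X] | (∀ i, f i ∈ weilPolys q g) ∧
      ¬ (f () ∈ weilPolys q g → IsGeneric (f ()))}.Finite :=
    (Pool.Agent.W521.Total.finite_tuples (fun _ : Unit => g) hq.pos.ne').subset fun f hf => hf.1
  have h2 : {f ∈ S | ¬ IsGeneric f}.ncard ≤ {f : Unit → ℤ[X] | (∀ i, f i ∈ weilPolys q g) ∧
      ¬ (f () ∈ weilPolys q g → IsGeneric (f ()))}.ncard := by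
    refine Set.ncard_le_ncard_of_injOn (fun f _ => f) ?_ ?_ hfin
    · rintro f ⟨hf, hg⟩
      exact ⟨fun _ => hS2 hf, fun h => hg (h (hS2 hf))⟩
    · intro f _ f' _ hff
      exact congrFun hff ()
  have hr : 0 ≤ Real.log q * (q : ℝ) ^ (-(1 / 6) : ℝ) := rate_nonneg q
  calc ({f ∈ S | ¬ IsGeneric f}.ncard : ℝ) ≤ _ := by exact_mod_cast h2
    _ ≤ C * (Real.log q * (q : ℝ) ^ (-(1 / 6) : ℝ)) *
          ∏ _i : Unit, ((ordinaryWeilPolys q g).ncard : ℝ) := h1
    _ ≤ _ := by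
        rw [Finset.univ_unique, Finset.prod_singleton]
        refine mul_le_mul_of_nonneg_left ?_ (mul_nonneg hC.le hr)
        exact_mod_cast Set.ncard_le_ncard hS1 ((finite_weilPolys hq.pos.ne').subset hS2)

/-- **The count of the polynomials with roots in a given field.** -/
theorem field_count (g D : ℕ) : ∃ C : ℝ, ∀ q : ℕ, IsPrimePow q →
    ∀ (E : IntermediateField ℚ ℂ) [FiniteDimensional ℚ E], Module.finrank ℚ E ≤ D →
      ({f ∈ weilPolys q g | spl f ≤ E}.ncard : ℝ) ≤ C * Real.log q ^ (2 * g * D) := by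
  classical
  refine ⟨(((units D).ncard : ℝ) * ((D : ℝ) + 1) ^ D) ^ (2 * g) * (1 / Real.log 2) ^ (2 * g * D),
    fun q hq E _ hE => ?_⟩
  rw [isPrimePow_nat_iff] at hq
  obtain ⟨p, a, hp, ha, rfl⟩ := hq
  have h1 : ({f ∈ weilPolys (p ^ a) g | spl f ≤ E}.ncard : ℝ) ≤
      (((units D).ncard * (a * D + 1) ^ D) ^ (2 * g) : ℕ) := by
    exact_mod_cast polys_count E D hE p hp a g
  refine h1.trans ?_
  push_cast
  have hl2 : 0 < Real.log 2 := Real.log_pos one_lt_two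
  have ha1 : (1 : ℝ) ≤ a := by exact_mod_cast ha
  have h2 : (a : ℝ) ≤ 1 / Real.log 2 * Real.log ((p : ℝ) ^ a) := by
    rw [Real.log_pow]
    have h3 : Real.log 2 ≤ Real.log p :=
      Real.log_le_log two_pos (by exact_mod_cast hp.two_le)
    rw [div_mul_eq_mul_div, one_mul, le_div_iff₀ hl2]
    exact mul_le_mul_of_nonneg_left h3 (by linarith)
  have h3 : (a : ℝ) * D + 1 ≤ (D + 1) * a := by nlinarith
  calc ((((units D).ncard : ℝ)) * ((a : ℝ) * D + 1) ^ D) ^ (2 * g) ≤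
      (((units D).ncard : ℝ) * (((D : ℝ) + 1) * a) ^ D) ^ (2 * g) := by
        gcongr
    _ = (((units D).ncard : ℝ) * ((D : ℝ) + 1) ^ D) ^ (2 * g) * (a : ℝ) ^ (2 * g * D) := by
        rw [mul_pow ((D : ℝ) + 1), ← mul_assoc, mul_pow, ← pow_mul (a : ℝ), mul_comm D]
    _ ≤ (((units D).ncard : ℝ) * ((D : ℝ) + 1) ^ D) ^ (2 * g) *
          (1 / Real.log 2 * Real.log ((p : ℝ) ^ a)) ^ (2 * g * D) := by
        gcongr
    _ = _ := by
        rw [mul_pow (1 / Real.log 2)]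
        ring

end Pool.Agent.V8H88.AB
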