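import Pool.Agent.V8H88.AB.Ideals
import Pool.Agent.V8H88.AB.Gal
import Pool.Agent.W521.Total

/-!
# The number of Weil polynomials with roots in a given number field
-/

set_option autoImplicit false

namespace Pool.Agent.V8H88.AB

open Polynomial NumberField Pool.Agent.W521.Descent Pool.Agent.W521.Count Pool.Agent.W521.Bad
  Pool.Agent.W521.Frob

/-- The complex numbers of degree at most `D` all of whose conjugates are integral of absolute value
one (they are roots of unity). -/
def units (D : ℕ) : Set ℂ := {z | ∃ P ∈ weilPolys 1 D, aeval z P = 0}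

theorem finite_units (D : ℕ) : (units D).Finite := by
  have h : units D = ⋃ P ∈ weilPolys 1 D, {z : ℂ | aeval z P = 0} := by
    ext z
    simp [units]
  rw [h]
  refine (finite_weilPolys one_ne_zero).biUnion fun P hP => ?_
  rw [← coe_rts hP.1]
  exact Finset.finite_toSet _

section field

variable (K : Type) [Field K] [NumberField K]

theorem mem_units (D : ℕ) (hD : Module.finrank ℚ K ≤ D) (x : K) (hx : IsIntegral ℤ x)
    (hu : ∀ φ : K →+* ℂ, ‖φ x‖ = 1) (j : K →+* ℂ) : j x ∈ units D := by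
  have hm : (minpoly ℤ x).Monic := minpoly.monic hx
  have hmap : (minpoly ℤ x).map (algebraMap ℤ ℚ) = minpoly ℚ x :=
    (minpoly.isIntegrallyClosed_eq_field_fractions' ℚ hx).symm
  have hd : (minpoly ℤ x).natDegree ≤ D := by
    refine le_trans ?_ hD
    rw [← hm.natDegree_map (algebraMap ℤ ℚ), hmap]
    exact minpoly.natDegree_le x
  have hroot : ∀ z : ℂ, aeval z (minpoly ℤ x) = 0 → ‖z‖ = 1 := by
    intro z hz
    have h1 : z ∈ (minpoly ℚ x).rootSet ℂ := by
      rw [mem_rootSet]
      refine ⟨minpoly.ne_zero hx.tower_top, ?_⟩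
      rw [← hmap, aeval_map_algebraMap]
      exact hz
    rw [← Embeddings.range_eval_eq_rootSet_minpoly K ℂ x] at h1
    obtain ⟨φ, rfl⟩ := h1
    exact hu φ
  have h0 : (minpoly ℤ x).eval 0 ^ 2 = 1 := by
    set F : ℂ[X] := (minpoly ℤ x).map (algebraMap ℤ ℂ) with hF
    have hFm : F.Monic := hm.map _
    have hprod : F = (F.roots.map (fun a => X - C a)).prod :=
      (IsAlgClosed.splits F).eq_prod_roots_of_monic hFm
    have h1 : ‖F.eval 0‖ = 1 := by
      rw [hprod, eval_multiset_prod, Multiset.map_map]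
      have h2 : ∀ R : Multiset ℂ, (∀ z ∈ R, ‖z‖ = 1) →
          ‖(R.map ((eval 0) ∘ fun a => X - C a)).prod‖ = 1 := by
        intro R
        induction R using Multiset.induction_on with
        | empty => simp
        | cons z R ih =>
          intro h
          rw [Multiset.map_cons, Multiset.prod_cons, norm_mul, ih fun w hw =>
            h w (Multiset.mem_cons_of_mem hw), mul_one, Function.comp_apply, eval_sub, eval_X,
            eval_C, zero_sub, norm_neg, h z (Multiset.mem_cons_self z R)]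
      refine h2 _ fun z hz => hroot z ?_
      have h3 := (mem_roots'.1 hz).2
      rw [hF, IsRoot.def, eval_map] at h3
      exact h3
    have h2 : F.eval 0 = (((minpoly ℤ x).eval 0 : ℤ) : ℂ) := by
      rw [hF, eval_map, eval₂_at_zero, ← coeff_zero_eq_eval_zero]
      rfl
    rw [h2, Complex.norm_intCast] at h1
    have h3 : |(minpoly ℤ x).eval 0| = 1 := by exact_mod_cast h1
    rw [← sq_abs, h3, one_pow]
  refine ⟨(minpoly ℤ x) ^ 2 * (X - C 1) ^ (2 * (D - (minpoly ℤ x).natDegree)), ⟨?_, ?_, ?_, ?_⟩, ?_⟩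
  · exact (hm.pow 2).mul ((monic_X_sub_C 1).pow _)
  · rw [(hm.pow 2).natDegree_mul ((monic_X_sub_C 1).pow _), hm.natDegree_pow,
      (monic_X_sub_C (1 : ℤ)).natDegree_pow, natDegree_X_sub_C]
    omega
  · rw [coeff_zero_eq_eval_zero, eval_mul, eval_pow, eval_pow, h0, eval_sub, eval_X, eval_C,
      pow_mul]
    norm_num
  · intro z hz
    rw [map_mul, map_pow, map_pow, mul_eq_zero] at hz
    rcases hz with h | h
    · rw [hroot z (pow_eq_zero_iff two_ne_zero |>.1 h)]
      norm_num
    · have h1 := (pow_eq_zero_iff (fun h2 => by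
        rw [h2, pow_zero] at h
        exact one_ne_zero h)).1 h
      rw [map_sub, aeval_X, aeval_C, map_one, sub_eq_zero] at h1
      rw [h1]
      norm_num
  · rw [map_mul, map_pow]
    have h1 : aeval (j x) (minpoly ℤ x) = 0 := by
      have h2 := Polynomial.hom_eval₂ (minpoly ℤ x) (algebraMap ℤ K) j x
      rw [RingHom.ext_int (j.comp (algebraMap ℤ K)) (algebraMap ℤ ℂ)] at h2
      have h3 : eval₂ (algebraMap ℤ K) x (minpoly ℤ x) = 0 := minpoly.aeval ℤ x
      rw [h3, map_zero] at h2
      exact h2.symm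
    rw [h1]
    ring

/-- The Weil numbers. -/
def weilNumbers (q : ℕ) : Set (𝓞 K) := {x | ∀ φ : K →+* ℂ, ‖φ (x : K)‖ ^ 2 = q}

theorem weil_count (D : ℕ) (hD : Module.finrank ℚ K ≤ D) (j : K →+* ℂ) (p : ℕ) (hp : p.Prime)
    (a : ℕ) : (weilNumbers K (p ^ a)).Finite ∧
      (weilNumbers K (p ^ a)).ncard ≤ (units D).ncard * (a * D + 1) ^ D := by
  classical
  have hq0 : (0 : ℝ) ≤ ((p ^ a : ℕ) : ℝ) := Nat.cast_nonneg _
  have hqpos : 0 < p ^ a := pow_pos hp.pos a
  have hfin : (weilNumbers K (p ^ a)).Finite := by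
    have h1 := (Embeddings.finite_of_norm_le K ℂ (Real.sqrt ((p ^ a : ℕ) : ℝ))).preimage
      (f := fun x : 𝓞 K => (x : K)) (RingOfIntegers.coe_injective.injOn)
    refine h1.subset fun x hx => ⟨x.2, fun φ => ?_⟩
    rw [← Real.sqrt_sq (norm_nonneg (φ (x : K))), hx φ]
  refine ⟨hfin, ?_⟩
  have hne0 : ∀ x ∈ weilNumbers K (p ^ a), ∀ φ : K →+* ℂ, φ (x : K) ≠ 0 := by
    intro x hx φ h
    have h1 := hx φ
    rw [h, norm_zero, zero_pow two_ne_zero] at h1
    have h2 : ((p ^ a : ℕ) : ℝ) ≠ 0 := by exact_mod_cast hqpos.ne'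
    exact h2 h1.symm
  -- the divisibility
  have hdvd : ∀ x ∈ weilNumbers K (p ^ a), Ideal.span {x} ∣ Ideal.span {(p : 𝓞 K)} ^ a := by
    intro x hx
    have h1 : IsIntegral ℤ (((p ^ a : ℕ) : K) / (x : K)) := by
      have h2 : IsIntegral ℤ (j (((p ^ a : ℕ) : K) / (x : K))) := by
        have h3 : j (((p ^ a : ℕ) : K) / (x : K)) = starRingEnd ℂ (j (x : K)) := by
          have h4 : j (x : K) * starRingEnd ℂ (j (x : K)) = ((p ^ a : ℕ) : ℂ) := by
            rw [Complex.mul_conj, Complex.normSq_eq_norm_sq, hx j]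
            norm_cast
          rw [map_div₀, map_natCast, ← h4, mul_div_cancel_left₀ _ (hne0 x hx j)]
        rw [h3]
        have h5 : IsIntegral ℤ (j (x : K)) := x.2.map j.toIntAlgHom
        exact h5.map (starRingEnd ℂ).toIntAlgHom
      exact (isIntegral_algHom_iff j.toIntAlgHom j.injective).1 h2
    rw [Ideal.span_singleton_pow, Ideal.dvd_iff_le, Ideal.span_singleton_le_span_singleton]
    obtain ⟨y, hy⟩ : ∃ y : 𝓞 K, (y : K) = ((p ^ a : ℕ) : K) / (x : K) := ⟨⟨_, h1⟩, rfl⟩
    refine ⟨y, ?_⟩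
    apply RingOfIntegers.coe_injective
    have hx0 : (x : K) ≠ 0 := by
      intro h
      exact hne0 x hx j (by rw [h, map_zero])
    rw [map_pow, map_natCast, map_mul]
    change (p : K) ^ a = (x : K) * (y : K)
    rw [hy, mul_div_cancel₀ _ hx0]
    push_cast
    rfl
  -- the count
  obtain ⟨hif, hic⟩ := ideals_count K p hp a
  set W : Finset (𝓞 K) := hfin.toFinset with hW
  have hWm : ∀ x, x ∈ W ↔ x ∈ weilNumbers K (p ^ a) := fun x => hfin.mem_toFinset
  have h1 : W.card ≤ (units D).ncard * (W.image fun x => Ideal.span {x}).card := by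
    refine Finset.card_le_mul_card_image _ _ ?_
    intro I hI
    obtain ⟨x₀, hx₀, rfl⟩ := Finset.mem_image.1 hI
    have hx₀' := (hWm x₀).1 hx₀
    have h2 : ∀ x ∈ W.filter (fun x => Ideal.span {x} = Ideal.span {x₀}),
        j (x : K) / j (x₀ : K) ∈ units D := by
      intro x hx
      obtain ⟨hxW, hxI⟩ := Finset.mem_filter.1 hx
      have hx' := (hWm x).1 hxW
      rw [Ideal.span_singleton_eq_span_singleton] at hxI
      obtain ⟨u, hu⟩ := hxI.symm
      have h3 : j (x : K) = j (x₀ : K) * j ((u : 𝓞 K) : K) := by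
        rw [← hu]
        push_cast
        rw [map_mul]
      rw [h3, mul_div_cancel_left₀ _ (hne0 x₀ hx₀' j)]
      refine mem_units K D hD _ (u : 𝓞 K).2 (fun φ => ?_) j
      have h4 : φ (x : K) = φ (x₀ : K) * φ ((u : 𝓞 K) : K) := by
        rw [← hu]
        push_cast
        rw [map_mul]
      have h5 := hx' φ
      rw [h4, norm_mul, mul_pow, hx₀' φ] at h5
      have h6 : ((p ^ a : ℕ) : ℝ) ≠ 0 := by exact_mod_cast hqpos.ne'
      have h7 : ‖φ ((u : 𝓞 K) : K)‖ ^ 2 = 1 := by
        apply mul_left_cancel₀ h6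
        rw [h5, mul_one]
      rwa [pow_eq_one_iff_of_nonneg (norm_nonneg _) two_ne_zero] at h7
    have h3 : ((W.filter (fun x => Ideal.span {x} = Ideal.span {x₀}) : Finset (𝓞 K)) :
        Set (𝓞 K)).ncard ≤
        (units D).ncard := by
      refine Set.ncard_le_ncard_of_injOn (fun x : 𝓞 K => j (x : K) / j (x₀ : K))
        (fun x hx => h2 x (Finset.mem_coe.1 hx)) ?_ (finite_units D)
      intro x _ y _ hxy
      have h4 : j (x : K) / j (x₀ : K) = j (y : K) / j (x₀ : K) := hxy
      have h5 := (div_left_inj' (hne0 x₀ hx₀' j)).1 h4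
      exact RingOfIntegers.coe_injective (j.injective h5)
    rwa [Set.ncard_coe_finset] at h3
  have h2 : (W.image fun x => Ideal.span {x}).card ≤ (a * D + 1) ^ D := by
    have h3 : ((W.image (fun x => Ideal.span {x}) : Finset (Ideal (𝓞 K))) :
        Set (Ideal (𝓞 K))).ncard ≤
        {I : Ideal (𝓞 K) | I ∣ Ideal.span {(p : 𝓞 K)} ^ a}.ncard := by
      refine Set.ncard_le_ncard ?_ hif
      intro I hI
      obtain ⟨x, hx, rfl⟩ := Finset.mem_image.1 (Finset.mem_coe.1 hI)
      exact hdvd x ((hWm x).1 hx)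
    rw [Set.ncard_coe_finset] at h3
    refine h3.trans (hic.trans ?_)
    calc (a * Module.finrank ℚ K + 1) ^ Module.finrank ℚ K ≤
        (a * D + 1) ^ Module.finrank ℚ K :=
          Nat.pow_le_pow_left (Nat.add_le_add_right (Nat.mul_le_mul_left a hD) 1) _
      _ ≤ (a * D + 1) ^ D := Nat.pow_le_pow_right (by omega) hD
  have h3 : (weilNumbers K (p ^ a)).ncard = W.card := Set.ncard_eq_toFinset_card _ hfin
  rw [h3]
  exact h1.trans (Nat.mul_le_mul_left _ h2)

end field

/-- **The number of Weil polynomials with roots in a given field.** -/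
theorem polys_count (E : IntermediateField ℚ ℂ) [FiniteDimensional ℚ E] (D : ℕ)
    (hD : Module.finrank ℚ E ≤ D) (p : ℕ) (hp : p.Prime) (a g : ℕ) :
    {f : ℤ[X] | f ∈ weilPolys (p ^ a) g ∧ spl f ≤ E}.ncard ≤
      ((units D).ncard * (a * D + 1) ^ D) ^ (2 * g) := by
  classical
  have : NumberField E := ⟨⟩
  obtain ⟨hfin, hcount⟩ := weil_count E D hD (E.val : E →+* ℂ) p hp a
  have hfinite : Finite (weilNumbers E (p ^ a)) := hfin.to_subtype
  let Φ : (Fin (2 * g) → weilNumbers E (p ^ a)) → ℂ[X] := fun w =>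
    ∏ k, (X - C (((w k : 𝓞 E) : E) : ℂ))
  have h1 : {f : ℤ[X] | f ∈ weilPolys (p ^ a) g ∧ spl f ≤ E}.ncard ≤ (Set.range Φ).ncard := by
    refine Set.ncard_le_ncard_of_injOn (fun f : ℤ[X] => f.map (algebraMap ℤ ℂ)) ?_ ?_
      (Set.finite_range Φ)
    · rintro f ⟨hf, hfE⟩
      have hmem : ∀ z : ℂ, aeval z f = 0 → ∃ w : weilNumbers E (p ^ a),
          (((w : 𝓞 E) : E) : ℂ) = z := by
        intro z hz
        have hzE : z ∈ E := hfE (IntermediateField.subset_adjoin _ _ hz)
        have hr : eval₂ (algebraMap ℤ E) (⟨z, hzE⟩ : E) f = 0 := by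
          apply (E.val : E →+* ℂ).injective
          rw [Polynomial.hom_eval₂, RingHom.ext_int ((E.val : E →+* ℂ).comp (algebraMap ℤ E))
            (algebraMap ℤ ℂ), map_zero]
          exact hz
        have hint : IsIntegral ℤ (⟨z, hzE⟩ : E) := ⟨f, hf.1, hr⟩
        refine ⟨⟨⟨⟨z, hzE⟩, hint⟩, fun φ => ?_⟩, rfl⟩
        refine hf.2.2.2 _ ?_
        have h2 := Polynomial.hom_eval₂ f (algebraMap ℤ E) φ (⟨z, hzE⟩ : E)
        rw [RingHom.ext_int (φ.comp (algebraMap ℤ E)) (algebraMap ℤ ℂ), hr, map_zero] at h2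
        exact h2.symm
      set F : ℂ[X] := f.map (algebraMap ℤ ℂ) with hF
      have hFm : F.Monic := hf.1.map _
      have hprod : F = (F.roots.map (fun a => X - C a)).prod :=
        (IsAlgClosed.splits F).eq_prod_roots_of_monic hFm
      have hlen : F.roots.toList.length = 2 * g := by
        rw [Multiset.length_toList, ← (IsAlgClosed.splits F).natDegree_eq_card_roots, hF,
          hf.1.natDegree_map, hf.2.1]
      have hroot : ∀ z ∈ F.roots, aeval z f = 0 := by
        intro z hz
        have h3 := (mem_roots'.1 hz).2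
        rw [hF, IsRoot.def, eval_map] at h3
        exact h3
      have hz : ∀ k : Fin (2 * g), ∃ w : weilNumbers E (p ^ a),
          (((w : 𝓞 E) : E) : ℂ) = F.roots.toList.get (Fin.cast hlen.symm k) := fun k =>
        hmem _ (hroot _ (Multiset.mem_toList.1 (List.get_mem _ _)))
      choose w hw using hz
      refine ⟨w, ?_⟩
      have h60 : Φ w = ∏ k, (X - C (F.roots.toList.get (Fin.cast hlen.symm k))) :=
        Finset.prod_congr rfl fun k _ => by rw [hw k]
      have h61 : ∏ k : Fin (2 * g), (X - C (F.roots.toList.get (Fin.cast hlen.symm k))) =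
          ∏ l : Fin F.roots.toList.length, (X - C (F.roots.toList.get l)) :=
        Fintype.prod_equiv (finCongr hlen.symm) _ _ fun l => rfl
      have h62 : (F.roots.toList.map fun a => X - C a).prod =
          ∏ l : Fin F.roots.toList.length, (X - C (F.roots.toList.get l)) := by
        rw [← List.prod_ofFn]
        congr 1
        apply List.ext_getElem
        · simp
        · intro i h1 h2
          simp
      have h63 : (F.roots.map (fun a => X - C a)).prod =
          (F.roots.toList.map fun a => X - C a).prod := by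
        conv_lhs => rw [← Multiset.coe_toList F.roots, Multiset.map_coe, Multiset.prod_coe]
      exact h60.trans (h61.trans (h62.symm.trans (h63.symm.trans hprod.symm)))
    · intro f _ f' _ h
      exact Polynomial.map_injective _ (algebraMap ℤ ℂ).injective_int h
  refine h1.trans ?_
  rw [← Set.image_univ]
  refine (Set.ncard_image_le Set.finite_univ).trans ?_
  rw [Set.ncard_univ, Nat.card_fun, Nat.card_eq_fintype_card (α := Fin (2 * g)), Fintype.card_fin]
  exact Nat.pow_le_pow_left hcount _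

end Pool.Agent.V8H88.AB
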